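import Pool.Agent.Lib.H62z.Defs

set_option autoImplicit false

/-! Chunk A (Terras). Induction on t: r + 2^(t+1) u = r + 2^t (2u), and 3^k (2u) is even, so the parity of T^t is that of T^t r. -/

open Finset
namespace H62z
open H62w

theorem od_zero (m : ℕ) : od m 0 = 0 := by
  unfold od
  simp

theorem od_succ (m t : ℕ) : od m (t + 1) = od m t + (if T^[t] m % 2 = 1 then 1 else 0) := by
  unfold od
  rw [range_add_one, filter_insert]
  split_ifs with h
  · rw [card_insert_of_notMem]
    simp
  · rfl

theorem od_add (m s t : ℕ) : od m (s + t) = od m s + od (T^[s] m) t := by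
  induction t with
  | zero => rw [Nat.add_zero, od_zero, Nat.add_zero]
  | succ t ih =>
    rw [← Nat.add_assoc, od_succ, od_succ, ih, Nat.add_comm s t, Function.iterate_add_apply,
      Nat.add_assoc]

theorem od_le (m t : ℕ) : od m t ≤ t := by
  unfold od
  refine (card_filter_le _ _).trans ?_
  rw [card_range]

theorem A_T_add (m k u : ℕ) (_h : k % 2 = 1) :
    T (m + k * (2 * u)) = T m + (if m % 2 = 1 then 3 * k * u else k * u) := by
  have e : k * (2 * u) = 2 * (k * u) := by ring
  have e2 : 3 * k * u = 3 * (k * u) := by ring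
  unfold T
  rw [e, e2]
  generalize k * u = x
  split_ifs <;> omega

theorem A_odd (k : ℕ) : 3 ^ k % 2 = 1 := by
  induction k with
  | zero => rfl
  | succ k ih => rw [pow_succ]; omega

theorem terras (r t u : ℕ) : T^[t] (r + 2 ^ t * u) = T^[t] r + 3 ^ od r t * u ∧ od (r + 2 ^ t * u) t = od r t := by
  induction t generalizing u with
  | zero =>
    rw [od_zero, od_zero]
    simp
  | succ t ih =>
    have e : r + 2 ^ (t + 1) * u = r + 2 ^ t * (2 * u) := by
      rw [pow_succ]
      ring
    obtain ⟨h1, h2⟩ := ih (2 * u)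
    have hp : T^[t] (r + 2 ^ (t + 1) * u) % 2 = T^[t] r % 2 := by
      rw [e, h1]
      have e3 : 3 ^ od r t * (2 * u) = 2 * (3 ^ od r t * u) := by ring
      rw [e3]
      omega
    refine ⟨?_, ?_⟩
    · rw [Function.iterate_succ_apply', Function.iterate_succ_apply', e, h1,
        A_T_add _ _ _ (A_odd _), od_succ]
      split_ifs with h
      · rw [pow_add, pow_one]
        ring
      · rw [Nat.add_zero]
    · rw [od_succ, od_succ, hp, e, h2]

/-- The parity patterns of the residues mod `2^t` are equidistributed. -/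
theorem od_gen (t : ℕ) (z : ℝ) : ∑ r ∈ range (2 ^ t), z ^ od r t = (1 + z) ^ t := by
  induction t with
  | zero => simp [od_zero]
  | succ t ih =>
    have e : 2 ^ (t + 1) = 2 ^ t + 2 ^ t := by rw [pow_succ]; ring
    rw [e, sum_range_add, ← sum_add_distrib, pow_succ, ← ih, sum_mul]
    refine sum_congr rfl fun r _ => ?_
    have h0 : 2 ^ t + r = r + 2 ^ t * 1 := by ring
    obtain ⟨h1, h2⟩ := terras r t 1
    rw [h0, od_succ, od_succ, h1, h2]
    have h3 := A_odd (od r t)
    by_cases h : T^[t] r % 2 = 1
    · rw [if_pos h, if_neg (by omega), Nat.add_zero, pow_succ]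
      ring
    · rw [if_neg h, if_pos (by omega), Nat.add_zero, pow_succ]
      ring

end H62z
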