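import Pool.Agent.Lib.H62z.SkA

set_option autoImplicit false

/-! Chunk B (Chernoff). For i ≤ t = e/8: at most 2^i * exp(-t/(2N^2)) residues mod 2^i have 2 od - i > t/N (od_gen with z = exp(2/N):
the sum of exp((2 od - i)/N) is (2 cosh(1/N))^i, and cosh x ≤ exp(x^2/2): Real.cosh_le_exp_half_sq), the same for i - 2 od; numbers ≤ 2^e in a class
mod 2^i: at most 2^(e-i)+1. Sum over i ≤ t. -/

open Finset
namespace H62z
open H62w

private theorem B_gen (x : ℝ) (i : ℕ) :
    ∑ r ∈ range (2 ^ i), Real.exp (x * (2 * (od r i : ℝ) - i)) = (2 * Real.cosh x) ^ i := by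
  have h1 : ∀ r, Real.exp (x * (2 * (od r i : ℝ) - i)) =
      Real.exp (-x) ^ i * Real.exp (2 * x) ^ od r i := by
    intro r
    rw [← Real.exp_nat_mul, ← Real.exp_nat_mul, ← Real.exp_add]
    congr 1
    ring
  simp only [h1]
  rw [← Finset.mul_sum, od_gen, ← mul_pow]
  congr 1
  rw [Real.cosh_eq, mul_add, ← Real.exp_add, mul_one]
  have : -x + 2 * x = x := by ring
  rw [this]
  ring

open Classical in
private theorem B_cher (x a : ℝ) (i : ℕ) :
    (((range (2 ^ i)).filter (fun r => a ≤ x * (2 * (od r i : ℝ) - i))).card : ℝ) ≤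
      2 ^ i * Real.exp (i * x ^ 2 / 2 - a) := by
  have h1 : (((range (2 ^ i)).filter (fun r => a ≤ x * (2 * (od r i : ℝ) - i))).card : ℝ) *
      Real.exp a ≤ (2 * Real.cosh x) ^ i := by
    rw [← B_gen x i, ← nsmul_eq_mul, ← Finset.sum_const]
    calc ∑ _r ∈ (range (2 ^ i)).filter (fun r => a ≤ x * (2 * (od r i : ℝ) - i)), Real.exp a
        ≤ ∑ r ∈ (range (2 ^ i)).filter (fun r => a ≤ x * (2 * (od r i : ℝ) - i)),
          Real.exp (x * (2 * (od r i : ℝ) - i)) := by
          apply Finset.sum_le_sum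
          intro r hr
          exact Real.exp_le_exp.2 (Finset.mem_filter.1 hr).2
      _ ≤ _ := by
          apply Finset.sum_le_sum_of_subset_of_nonneg (Finset.filter_subset _ _)
          intro r _ _
          exact (Real.exp_pos _).le
  have h2 : (2 * Real.cosh x) ^ i ≤ 2 ^ i * Real.exp (i * x ^ 2 / 2) := by
    rw [mul_pow]
    apply mul_le_mul_of_nonneg_left _ (by positivity)
    calc Real.cosh x ^ i ≤ Real.exp (x ^ 2 / 2) ^ i :=
          pow_le_pow_left₀ (Real.cosh_pos x).le (Real.cosh_le_exp_half_sq x) i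
      _ = Real.exp (i * x ^ 2 / 2) := by
          rw [← Real.exp_nat_mul]
          congr 1
          ring
  rw [Real.exp_sub, ← mul_div_assoc, le_div_iff₀ (Real.exp_pos a)]
  exact h1.trans h2

open Classical in
private theorem B_class {i e : ℕ} (hi : i ≤ e) (R : ℕ → Prop) (hR : ∀ m, R m → R (m % 2 ^ i)) :
    (((range (2 ^ e + 1)).filter R).card : ℝ) ≤ ((range (2 ^ i)).filter R).card * 2 ^ (e - i + 1) := by
  have h1 : ((range (2 ^ e + 1)).filter R).card ≤
      (((range (2 ^ i)).filter R) ×ˢ range (2 ^ (e - i) + 1)).card := by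
    apply Finset.card_le_card_of_injOn (fun m => (m % 2 ^ i, m / 2 ^ i))
    · intro m hm
      have hm' := Finset.mem_filter.1 (Finset.mem_coe.1 hm)
      have hmr := Finset.mem_range.1 hm'.1
      refine Finset.mem_coe.2 (Finset.mem_product.2 ⟨Finset.mem_filter.2
        ⟨Finset.mem_range.2 (Nat.mod_lt _ (by positivity)), hR m hm'.2⟩, Finset.mem_range.2 ?_⟩)
      rw [Nat.lt_succ_iff]
      apply Nat.div_le_of_le_mul
      rw [← pow_add, show i + (e - i) = e by omega]
      omega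
    · intro m _ m' _ h
      have h2 := congrArg Prod.fst h
      have h3 := congrArg Prod.snd h
      simp only at h2 h3
      rw [← Nat.mod_add_div m (2 ^ i), ← Nat.mod_add_div m' (2 ^ i), h2, h3]
  rw [Finset.card_product, Finset.card_range] at h1
  have h4 : 2 ^ (e - i) + 1 ≤ 2 ^ (e - i + 1) := by
    have : 1 ≤ 2 ^ (e - i) := Nat.one_le_two_pow
    rw [pow_succ]
    omega
  have h5 := h1.trans (Nat.mul_le_mul_left _ h4)
  exact_mod_cast h5

private theorem B_od (i m : ℕ) : od m i = od (m % 2 ^ i) i := by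
  have h := (terras (m % 2 ^ i) i (m / 2 ^ i)).2
  rw [Nat.mod_add_div] at h
  exact h

open Classical in
private theorem B_one {N i t e : ℕ} (hN : 1 ≤ N) (hit : i ≤ t) (hie : i ≤ e) (x : ℝ)
    (hx : x ^ 2 = 1 / (N : ℝ) ^ 2) :
    (((range (2 ^ e + 1)).filter
      (fun m => (t : ℝ) / (N : ℝ) ^ 2 ≤ x * (2 * (od m i : ℝ) - i))).card : ℝ) ≤
      2 * 2 ^ e * Real.exp (-(t / (2 * (N : ℝ) ^ 2))) := by
  have hN' : (0 : ℝ) < N := by exact_mod_cast hN
  have h1 := B_class hie (fun m => (t : ℝ) / (N : ℝ) ^ 2 ≤ x * (2 * (od m i : ℝ) - i))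
    (fun m h => by
      have := B_od i m
      rw [← this]
      exact h)
  refine h1.trans ?_
  have h2 := B_cher x ((t : ℝ) / (N : ℝ) ^ 2) i
  have h3 : (i : ℝ) * x ^ 2 / 2 - (t : ℝ) / (N : ℝ) ^ 2 ≤ -(t / (2 * (N : ℝ) ^ 2)) := by
    rw [hx]
    have h4 : (i : ℝ) * (1 / (N : ℝ) ^ 2) ≤ (t : ℝ) * (1 / (N : ℝ) ^ 2) := by
      apply mul_le_mul_of_nonneg_right _ (by positivity)
      exact_mod_cast hit
    have h5 : (t : ℝ) / (N : ℝ) ^ 2 = (t : ℝ) * (1 / (N : ℝ) ^ 2) := by ring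
    have h6 : (t : ℝ) / (2 * (N : ℝ) ^ 2) = (t : ℝ) * (1 / (N : ℝ) ^ 2) / 2 := by
      field_simp
    rw [h5, h6]
    linarith
  calc _ ≤ (2 ^ i * Real.exp (i * x ^ 2 / 2 - (t : ℝ) / (N : ℝ) ^ 2)) * 2 ^ (e - i + 1) :=
        mul_le_mul_of_nonneg_right h2 (by positivity)
    _ ≤ (2 ^ i * Real.exp (-(t / (2 * (N : ℝ) ^ 2)))) * 2 ^ (e - i + 1) := by
        gcongr
    _ = 2 * 2 ^ e * Real.exp (-(t / (2 * (N : ℝ) ^ 2))) := by
        have : (2 : ℝ) ^ e = 2 ^ i * 2 ^ (e - i) := by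
          rw [← pow_add, show i + (e - i) = e by omega]
        rw [this, pow_succ]
        ring

/-- Few numbers have a bad block. -/
theorem bad_count (N : ℕ) (hN : 1 ≤ N) : ∃ c C : ℝ, 0 < c ∧ 0 < C ∧ ∀ e : ℕ,
    (((range (2 ^ e + 1)).filter (fun m => Lev e m ∧ ¬ Gd N e m)).card : ℝ) ≤ C * 2 ^ e * Real.exp (-(c * e)) := by
  classical
  have hN' : (0 : ℝ) < N := by exact_mod_cast hN
  set a : ℝ := 1 / (4 * (N : ℝ) ^ 2) with ha
  have ha0 : 0 < a := by positivity
  refine ⟨a / 8, 4 * (1 + 1 / a) * Real.exp a, by positivity, by positivity, ?_⟩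
  intro e
  set t := e / 8 with ht
  set U : ℕ → Finset ℕ := fun i => (range (2 ^ e + 1)).filter
      (fun m => (t : ℝ) / (N : ℝ) ^ 2 ≤ (1 / (N : ℝ)) * (2 * (od m i : ℝ) - i)) with hU
  set V : ℕ → Finset ℕ := fun i => (range (2 ^ e + 1)).filter
      (fun m => (t : ℝ) / (N : ℝ) ^ 2 ≤ (-(1 / (N : ℝ))) * (2 * (od m i : ℝ) - i)) with hV
  have hsub : (range (2 ^ e + 1)).filter (fun m => Lev e m ∧ ¬ Gd N e m) ⊆
      (range (t + 1)).biUnion (fun i => U i ∪ V i) := by
    intro m hm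
    obtain ⟨hmr, _, hg⟩ := Finset.mem_filter.1 hm
    unfold Gd at hg
    push Not at hg
    obtain ⟨i, hi, hgi⟩ := hg
    rw [← ht] at hi hgi
    refine Finset.mem_biUnion.2 ⟨i, hi, ?_⟩
    rw [Finset.mem_union]
    by_cases h1 : N * (2 * od m i) ≤ N * i + t
    · right
      have h2 := hgi h1
      refine Finset.mem_filter.2 ⟨hmr, ?_⟩
      have h3 : (N : ℝ) * (2 * od m i) + t ≤ N * i := by exact_mod_cast h2.le
      rw [div_le_iff₀ (by positivity)]
      have h4 : -(1 / (N : ℝ)) * (2 * (od m i : ℝ) - i) * (N : ℝ) ^ 2 =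
          N * i - N * (2 * od m i) := by
        field_simp
        ring
      rw [h4]
      linarith
    · left
      refine Finset.mem_filter.2 ⟨hmr, ?_⟩
      have h3 : (N : ℝ) * i + t ≤ N * (2 * od m i) := by exact_mod_cast (not_le.1 h1).le
      rw [div_le_iff₀ (by positivity)]
      have h4 : (1 / (N : ℝ)) * (2 * (od m i : ℝ) - i) * (N : ℝ) ^ 2 =
          N * (2 * od m i) - N * i := by
        field_simp
      rw [h4]
      linarith
  have hcard : (((range (2 ^ e + 1)).filter (fun m => Lev e m ∧ ¬ Gd N e m)).card : ℝ) ≤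
      ∑ i ∈ range (t + 1), (((U i).card : ℝ) + (V i).card) := by
    have h1 := (Finset.card_le_card hsub).trans (Finset.card_biUnion_le)
    have h2 : ∑ i ∈ range (t + 1), (U i ∪ V i).card ≤ ∑ i ∈ range (t + 1), ((U i).card + (V i).card) :=
      Finset.sum_le_sum fun i _ => Finset.card_union_le _ _
    have h3 := h1.trans h2
    exact_mod_cast h3
  have hone : ∀ i ∈ range (t + 1), ((U i).card : ℝ) + (V i).card ≤
      4 * 2 ^ e * Real.exp (-(t / (2 * (N : ℝ) ^ 2))) := by
    intro i hi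
    have hit : i ≤ t := by
      have := Finset.mem_range.1 hi
      omega
    have h1 := B_one (e := e) hN hit (by omega) (1 / (N : ℝ)) (by rw [div_pow, one_pow])
    have h2 := B_one (e := e) hN hit (by omega) (-(1 / (N : ℝ))) (by rw [neg_sq, div_pow, one_pow])
    have h3 : ((U i).card : ℝ) + (V i).card ≤ 2 * 2 ^ e * Real.exp (-(t / (2 * (N : ℝ) ^ 2))) +
        2 * 2 ^ e * Real.exp (-(t / (2 * (N : ℝ) ^ 2))) := add_le_add h1 h2
    linarith
  have hsum := hcard.trans (Finset.sum_le_sum hone)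
  rw [Finset.sum_const, Finset.card_range, nsmul_eq_mul] at hsum
  refine hsum.trans ?_
  have hte : (e : ℝ) / 8 - 1 ≤ t := by
    have h1 : e < 8 * (t + 1) := by omega
    have h2 : (e : ℝ) < 8 * (t + 1) := by exact_mod_cast h1
    linarith
  have hexp : Real.exp (-(t / (2 * (N : ℝ) ^ 2))) = Real.exp (-(a * t)) * Real.exp (-(a * t)) := by
    rw [← Real.exp_add]
    congr 1
    rw [ha]
    field_simp
    ring
  have h1 : ((t : ℝ) + 1) * Real.exp (-(a * t)) ≤ 1 + 1 / a := by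
    have h2 : a * t ≤ Real.exp (a * t) := by
      have := Real.add_one_le_exp (a * (t : ℝ))
      linarith
    have h3 : Real.exp (-(a * t)) * Real.exp (a * t) = 1 := by
      rw [← Real.exp_add]
      simp
    have h4 : (t : ℝ) * Real.exp (-(a * t)) ≤ 1 / a := by
      rw [le_div_iff₀ ha0]
      calc (t : ℝ) * Real.exp (-(a * t)) * a = Real.exp (-(a * t)) * (a * t) := by ring
        _ ≤ Real.exp (-(a * t)) * Real.exp (a * t) := by gcongr
        _ = 1 := h3
    have h5 : Real.exp (-(a * t)) ≤ 1 := Real.exp_le_one_iff.2 (by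
      have : 0 ≤ a * (t : ℝ) := by positivity
      linarith)
    calc ((t : ℝ) + 1) * Real.exp (-(a * t)) = t * Real.exp (-(a * t)) + Real.exp (-(a * t)) := by ring
      _ ≤ _ := by linarith
  have h6 : Real.exp (-(a * t)) ≤ Real.exp a * Real.exp (-(a / 8 * e)) := by
    rw [← Real.exp_add]
    apply Real.exp_le_exp.2
    have := mul_le_mul_of_nonneg_left hte ha0.le
    linarith
  rw [hexp]
  push_cast
  calc ((t : ℝ) + 1) * (4 * 2 ^ e * (Real.exp (-(a * t)) * Real.exp (-(a * t))))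
      = 4 * 2 ^ e * ((((t : ℝ) + 1) * Real.exp (-(a * t))) * Real.exp (-(a * t))) := by ring
    _ ≤ 4 * 2 ^ e * ((1 + 1 / a) * (Real.exp a * Real.exp (-(a / 8 * e)))) := by
        gcongr
    _ = _ := by ring

end H62z
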