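import Pool.Agent.Lib.H62z.SkA

set_option autoImplicit false

/-! Chunk C (sizes). size_hi: 2^t T^t m <= 3^od (m + 2^t) by induction, and 2^t <= m.
stage_pass: with t = e/8, od ≤ t/2 + t/(2N), so 400 od <= 201 t, 3^5 <= 2^8, T^t(m) ≤ 2^(e-e/48); take the first i. Lev: 2 T x ≥ x. -/

open Finset
namespace H62z
open H62w

theorem T_pos {m : ℕ} (h : 1 ≤ m) : 1 ≤ T m := by
  unfold T
  split_ifs <;> omega

theorem T_half (m : ℕ) : m ≤ 2 * T m := by
  unfold T
  split_ifs <;> omega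

theorem size_lo (m t : ℕ) : 3 ^ od m t * m ≤ 2 ^ t * T^[t] m := by
  induction t with
  | zero => simp [od_zero]
  | succ t ih =>
    rw [od_succ, Function.iterate_succ_apply']
    set x := T^[t] m
    by_cases hx : x % 2 = 1
    · have h1 : 3 * x ≤ 2 * T x := by
        unfold T
        rw [if_neg (by omega)]
        omega
      rw [if_pos hx]
      calc 3 ^ (od m t + 1) * m = 3 * (3 ^ od m t * m) := by ring
        _ ≤ 3 * (2 ^ t * x) := Nat.mul_le_mul_left _ ih
        _ = 2 ^ t * (3 * x) := by ring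
        _ ≤ 2 ^ t * (2 * T x) := Nat.mul_le_mul_left _ h1
        _ = 2 ^ (t + 1) * T x := by ring
    · have h1 : x ≤ 2 * T x := T_half x
      rw [if_neg hx, add_zero]
      calc 3 ^ od m t * m ≤ 2 ^ t * x := ih
        _ ≤ 2 ^ t * (2 * T x) := Nat.mul_le_mul_left _ h1
        _ = 2 ^ (t + 1) * T x := by ring

private theorem C_size (m t : ℕ) : 2 ^ t * T^[t] m ≤ 3 ^ od m t * (m + 2 ^ t) := by
  induction t with
  | zero => simp [od_zero]
  | succ t ih =>
    rw [od_succ, Function.iterate_succ_apply']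
    set x := T^[t] m
    by_cases hx : x % 2 = 1
    · have h1 : 2 * T x = 3 * x + 1 := by
        unfold T
        rw [if_neg (by omega)]
        omega
      rw [if_pos hx]
      have h2 : 1 ≤ 3 ^ (od m t + 1) := Nat.one_le_pow _ _ (by norm_num)
      calc 2 ^ (t + 1) * T x = 2 ^ t * (2 * T x) := by ring
        _ = 3 * (2 ^ t * x) + 1 * 2 ^ t := by rw [h1]; ring
        _ ≤ 3 * (3 ^ od m t * (m + 2 ^ t)) + 3 ^ (od m t + 1) * 2 ^ t :=
            Nat.add_le_add (Nat.mul_le_mul_left _ ih) (Nat.mul_le_mul_right _ h2)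
        _ = 3 ^ (od m t + 1) * (m + 2 ^ (t + 1)) := by ring
    · have h1 : 2 * T x = x := by
        unfold T
        rw [if_pos (by omega)]
        omega
      rw [if_neg hx, add_zero]
      calc 2 ^ (t + 1) * T x = 2 ^ t * (2 * T x) := by ring
        _ = 2 ^ t * x := by rw [h1]
        _ ≤ 3 ^ od m t * (m + 2 ^ t) := ih
        _ ≤ 3 ^ od m t * (m + 2 ^ (t + 1)) := by
            apply Nat.mul_le_mul_left
            have : 2 ^ t ≤ 2 ^ (t + 1) := Nat.pow_le_pow_right (by norm_num) (by omega)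
            omega

theorem size_hi {e m t : ℕ} (he : 40 ≤ e) (h : Lev e m) (ht : 4 * t ≤ e) :
    2 ^ t * T^[t] m ≤ 2 * 3 ^ od m t * m := by
  have h1 := C_size m t
  have h2 : 2 ^ (t + 1) ≤ 2 ^ e := Nat.pow_le_pow_right (by norm_num) (by omega)
  have h3 : 2 ^ t ≤ m := by
    have := h.1
    rw [pow_succ] at h2
    omega
  calc 2 ^ t * T^[t] m ≤ 3 ^ od m t * (m + 2 ^ t) := h1
    _ ≤ 3 ^ od m t * (m + m) := by
        apply Nat.mul_le_mul_left
        omega
    _ = 2 * 3 ^ od m t * m := by ring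

private theorem C_pow {a k : ℕ} (h : 8 * a ≤ 5 * k) : 3 ^ a ≤ 2 ^ k := by
  have h1 : (3 ^ a) ^ 5 ≤ (2 ^ k) ^ 5 := by
    calc (3 ^ a) ^ 5 = (3 ^ 5) ^ a := by rw [← pow_mul, ← pow_mul, mul_comm]
      _ ≤ (2 ^ 8) ^ a := Nat.pow_le_pow_left (by norm_num) a
      _ = 2 ^ (8 * a) := by rw [← pow_mul]
      _ ≤ 2 ^ (5 * k) := Nat.pow_le_pow_right (by norm_num) h
      _ = (2 ^ k) ^ 5 := by rw [← pow_mul, mul_comm]
  exact (Nat.pow_le_pow_iff_left (by norm_num)).1 h1

/-- A good block passes below the next level. -/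
theorem stage_pass {N e m : ℕ} (hN : 200 ≤ N) (he : 2000 ≤ e) (h : Lev e m) (hg : Gd N e m) :
    ∃ i, i ≤ e / 8 ∧ 1 ≤ i ∧ (∀ u < i, 2 ^ (e - e / 48) < T^[u] m) ∧ T^[i] m ≤ 2 ^ (e - e / 48) ∧
      Lev (e - e / 48) (T^[i] m) := by
  set t := e / 8 with ht
  have hod : 400 * od m t ≤ 201 * t := by
    have h1 := (hg t (Finset.mem_range.2 (by omega))).1
    rw [← ht] at h1
    by_contra hcon
    have h2 : t < 2 * od m t := by omega
    obtain ⟨d, hd⟩ := Nat.exists_eq_add_of_lt h2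
    have h3 : N * (2 * od m t) = N * t + N * (d + 1) := by
      rw [hd]; ring
    have h4 : N * (d + 1) ≤ t := by omega
    have h5 : 200 * (d + 1) ≤ N * (d + 1) := Nat.mul_le_mul_right _ hN
    omega
  have h1 : 2 ^ t * T^[t] m ≤ 2 * 3 ^ od m t * m := size_hi (by omega) h (by omega)
  have h2 : 3 ^ od m t ≤ 2 ^ (t - e / 48 - 1) := C_pow (by omega)
  have hP : T^[t] m ≤ 2 ^ (e - e / 48) := by
    have h3 : 2 ^ t * T^[t] m ≤ 2 ^ t * 2 ^ (e - e / 48) := by
      calc 2 ^ t * T^[t] m ≤ 2 * 3 ^ od m t * m := h1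
        _ ≤ 2 * 2 ^ (t - e / 48 - 1) * 2 ^ e :=
            Nat.mul_le_mul (Nat.mul_le_mul_left _ h2) h.2
        _ = 2 ^ (1 + (t - e / 48 - 1) + e) := by rw [pow_add, pow_add, pow_one]
        _ = 2 ^ (t + (e - e / 48)) := by
            congr 1
            omega
        _ = 2 ^ t * 2 ^ (e - e / 48) := by rw [pow_add]
    exact Nat.le_of_mul_le_mul_left h3 (by positivity)
  have hex : ∃ i, T^[i] m ≤ 2 ^ (e - e / 48) := ⟨t, hP⟩
  classical
  have hspec := Nat.find_spec hex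
  have hmin : ∀ u < Nat.find hex, 2 ^ (e - e / 48) < T^[u] m := fun u hu =>
    not_le.1 (Nat.find_min hex hu)
  have hle : Nat.find hex ≤ t := Nat.find_min' hex hP
  have hpos : 1 ≤ Nat.find hex := by
    by_contra hcon
    have h0 : Nat.find hex = 0 := by omega
    rw [h0, Function.iterate_zero, id_eq] at hspec
    have h4 : 2 * 2 ^ (e - e / 48) ≤ 2 ^ e := by
      rw [← pow_succ']
      exact Nat.pow_le_pow_right (by norm_num) (by omega)
    have := h.1
    omega
  refine ⟨Nat.find hex, hle, hpos, hmin, hspec, ?_, hspec⟩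
  have h5 := hmin (Nat.find hex - 1) (by omega)
  have h6 : T^[Nat.find hex] m = T (T^[Nat.find hex - 1] m) := by
    rw [← Function.iterate_succ_apply' T, Nat.succ_eq_add_one, Nat.sub_add_cancel hpos]
  rw [h6]
  exact lt_of_lt_of_le h5 (T_half _)

end H62z
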