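import Pool.Agent.Lib.H78P.SkA1

set_option autoImplicit false

/-!
Almost all integers, in natural density: definitions. See PROOF.md in this folder.
Levels: `n` has level `e` if `2^(e-1) < n ≤ 2^e`. Blocks of `e/8` steps; next level `e - e/48`.
-/

open Finset

namespace H62z
open H62w

/-- The `3x+1` map. -/
def T (m : ℕ) : ℕ := if m % 2 = 0 then m / 2 else (3 * m + 1) / 2

/-- Number of odd terms among `m, T m, ..., T^(t-1) m`. -/
def od (m t : ℕ) : ℕ := ((range t).filter (fun i => T^[i] m % 2 = 1)).card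

/-- `n` has level `e`. -/
def Lev (e n : ℕ) : Prop := 2 ^ e < 2 * n ∧ n ≤ 2 ^ e

instance decLev (e n : ℕ) : Decidable (Lev e n) := by unfold Lev; infer_instance

/-- Good block of `e/8` steps. -/
def Gd (N e m : ℕ) : Prop :=
  ∀ i ∈ range (e / 8 + 1), N * (2 * od m i) ≤ N * i + e / 8 ∧ N * i ≤ N * (2 * od m i) + e / 8

instance decGd (N e m : ℕ) : Decidable (Gd N e m) := by unfold Gd; infer_instance

/-- Good path from `n` of level `e0` to the first passage point `m` of level `e`, in `j` steps.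
Every stage is the first passage to `≤ 2^(e - e/48)` and takes place inside a good block. -/
inductive Rch (N : ℕ) : ℕ → ℕ → ℕ → ℕ → ℕ → Prop
  | base (e n : ℕ) (h : Lev e n) : Rch N e n e n 0
  | step (e0 n i e m j : ℕ) (h : Lev e0 n) (hg : Gd N e0 n) (he : 48 ≤ e0) (hi : i ≤ e0 / 8)
      (h1 : ∀ u < i, 2 ^ (e0 - e0 / 48) < T^[u] n) (h2 : T^[i] n ≤ 2 ^ (e0 - e0 / 48))
      (h' : Rch N (e0 - e0 / 48) (T^[i] n) e m j) : Rch N e0 n e m (i + j)

/-- The words of length `K` above a first passage point. -/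
def GT (M L0 K : ℕ) : Finset (List ℕ) :=
  (words M K).filter (fun l => ∀ i ∈ range (K + 1), 3 ^ i ≤ 2 ^ (H62y.JJ l i) ∧
    (L0 ≤ i → 1000 * H62y.JJ l i ≤ 2001 * i ∧ 1999 * i ≤ 1000 * H62y.JJ l i))

/-- Size of the word in the cell `(Θ, 2Θ]`. -/
def Cell (Θ : ℝ) (l : List ℕ) : Prop :=
  Θ * 3 ^ l.length < (2 : ℝ) ^ l.sum ∧ (2 : ℝ) ^ l.sum ≤ 2 * Θ * 3 ^ l.length

end H62z
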