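import Pool.Agent.Lib.H62z.SkC

set_option autoImplicit false

/-! Chunk E (decomposition). Strong induction on e0 with stage_pass. -/

open Finset
namespace H62z
open H62w

/-- Either the path meets a bad block at a level above `f`, or it gets down to level at most `f`. -/
theorem decomp {N f : ℕ} (hN : 200 ≤ N) (hf : 2000 ≤ f) : ∀ e0 n : ℕ, Lev e0 n →
    (∃ e m j, f < e ∧ Rch N e0 n e m j ∧ ¬ Gd N e m) ∨
    (∃ e m j, e ≤ f ∧ (e = e0 ∨ f ≤ 2 * e) ∧ Rch N e0 n e m j) := by
  intro e0
  induction e0 using Nat.strong_induction_on with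
  | _ e0 ih =>
    intro n hn
    by_cases h1 : e0 ≤ f
    · exact Or.inr ⟨e0, n, 0, h1, Or.inl rfl, Rch.base e0 n hn⟩
    · have h1' : f < e0 := not_le.1 h1
      by_cases hg : Gd N e0 n
      · obtain ⟨i, hi, _, hu, hle, hlev⟩ := stage_pass hN (by omega) hn hg
        have hlt : e0 - e0 / 48 < e0 := by omega
        rcases ih (e0 - e0 / 48) hlt (T^[i] n) hlev with ⟨e, m, j, he, hr, hb⟩ | ⟨e, m, j, he, hc, hr⟩
        · exact Or.inl ⟨e, m, i + j, he, Rch.step e0 n i e m j hn hg (by omega) hi hu hle hr, hb⟩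
        · refine Or.inr ⟨e, m, i + j, he, Or.inr ?_,
            Rch.step e0 n i e m j hn hg (by omega) hi hu hle hr⟩
          rcases hc with hc | hc
          · omega
          · exact hc
      · exact Or.inl ⟨e0, n, 0, h1', Rch.base e0 n hn, hg⟩

end H62z
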