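import Pool.Agent.Lib.H62z.SkC

set_option autoImplicit false

/-! Chunk F (properties of good paths). All by induction on Rch. -/

open Finset
namespace H62z
open H62w

theorem Rch_end {N e0 n e m j : ℕ} (h : Rch N e0 n e m j) : T^[j] n = m ∧ Lev e m ∧ Lev e0 n ∧ e ≤ e0 := by
  induction h with
  | base e n h => exact ⟨rfl, h, h, le_rfl⟩
  | step e0 n i e m j h hg he hi h1 h2 h' ih =>
    obtain ⟨a1, a2, _, a4⟩ := ih
    refine ⟨?_, a2, h, by omega⟩
    rw [add_comm, Function.iterate_add_apply, a1]

/-- `m` is a running minimum. -/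
theorem Rch_above {N e0 n e m j : ℕ} (h : Rch N e0 n e m j) : ∀ u < j, 2 ^ e < T^[u] n := by
  induction h with
  | base e n h => intro u hu; omega
  | step e0 n i e m j h hg he hi h1 h2 h' ih =>
    intro u hu
    have hle := (Rch_end h').2.2.2
    rcases Nat.lt_or_ge u i with hui | hui
    · exact lt_of_le_of_lt (Nat.pow_le_pow_right (by norm_num) hle) (h1 u hui)
    · obtain ⟨v, rfl⟩ := Nat.exists_eq_add_of_le hui
      rw [add_comm, Function.iterate_add_apply]
      exact ih v (by omega)

theorem F_halve (t n : ℕ) : n ≤ 2 ^ t * T^[t] n := by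
  induction t generalizing n with
  | zero => simp
  | succ t ih =>
    rw [Function.iterate_succ_apply]
    have h1 := ih (T n)
    have h2 := T_half n
    calc n ≤ 2 * T n := h2
      _ ≤ 2 * (2 ^ t * T^[t] (T n)) := Nat.mul_le_mul_left _ h1
      _ = 2 ^ (t + 1) * T^[t] (T n) := by ring

/-- Each step at most halves; each stage of length `i` starts at a level `e` with `i ≤ e/8 ≤ 11 (e/48)`. -/
theorem Rch_time {N e0 n e m j : ℕ} (h : Rch N e0 n e m j) : e0 ≤ e + j ∧ j ≤ 11 * (e0 - e) := by
  constructor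
  · obtain ⟨h1, h2, h3, h4⟩ := Rch_end h
    have h5 := F_halve j n
    rw [h1] at h5
    have h6 : 2 ^ e0 < 2 ^ (e + j + 1) := by
      calc 2 ^ e0 < 2 * n := h3.1
        _ ≤ 2 * (2 ^ j * m) := Nat.mul_le_mul_left _ h5
        _ ≤ 2 * (2 ^ j * 2 ^ e) := Nat.mul_le_mul_left _ (Nat.mul_le_mul_left _ h2.2)
        _ = 2 ^ (e + j + 1) := by rw [pow_succ, pow_add]; ring
    have h7 := (Nat.pow_lt_pow_iff_right (by norm_num : 1 < 2)).1 h6
    omega
  · induction h with
    | base e n h => omega
    | step e0 n i e m j h hg he hi h1 h2 h' ih =>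
      have hle := (Rch_end h').2.2.2
      omega

theorem F_full {N e0 n e m j : ℕ} (h : Rch N e0 n e m j) :
    N * (2 * od n j) ≤ N * j + 11 * (e0 - e) ∧ N * j ≤ N * (2 * od n j) + 11 * (e0 - e) := by
  induction h with
  | base e n h => simp [od_zero]
  | step e0 n i e m j h hg he hi h1 h2 h' ih =>
    have hle := (Rch_end h').2.2.2
    obtain ⟨g1, g2⟩ := hg i (mem_range.2 (by omega))
    obtain ⟨k1, k2⟩ := ih
    rw [od_add]
    have e1 : N * (2 * (od n i + od (T^[i] n) j)) = N * (2 * od n i) + N * (2 * od (T^[i] n) j) := by ring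
    have e2 : N * (i + j) = N * i + N * j := by ring
    rw [e1, e2]
    omega

/-- Deviation of the number of odd steps between time `u` and the end. -/
theorem Rch_dev {N e0 n e m j : ℕ} (h : Rch N e0 n e m j) : ∀ u ≤ j,
    N * (2 * od (T^[u] n) (j - u)) ≤ N * (j - u) + 12 * (j - u) + e ∧
    N * (j - u) ≤ N * (2 * od (T^[u] n) (j - u)) + 12 * (j - u) + e := by
  induction h with
  | base e n h =>
    intro u hu
    have : u = 0 := by omega
    subst this
    simp [od_zero]
  | step e0 n i e m j h hg he hi h1 h2 h' ih =>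
    intro u hu
    have hle := (Rch_end h').2.2.2
    have htm := Rch_time h'
    rcases Nat.lt_or_ge u i with hui | hui
    · obtain ⟨g1, g2⟩ := hg i (mem_range.2 (by omega))
      obtain ⟨g3, g4⟩ := hg u (mem_range.2 (by omega))
      obtain ⟨k1, k2⟩ := F_full h'
      have e0' : i + j - u = (i - u) + j := by omega
      have e1 : T^[i - u] (T^[u] n) = T^[i] n := by
        rw [← Function.iterate_add_apply]
        congr 2
        omega
      have e2 : od n i = od n u + od (T^[u] n) (i - u) := by
        rw [← od_add]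
        congr 1
        omega
      have e3 : od (T^[u] n) (i + j - u) = od (T^[u] n) (i - u) + od (T^[i] n) j := by
        rw [e0', od_add, e1]
      have e4 : N * (2 * od n i) = N * (2 * od n u) + N * (2 * od (T^[u] n) (i - u)) := by
        rw [e2]; ring
      have e5 : N * (2 * od (T^[u] n) (i + j - u)) =
          N * (2 * od (T^[u] n) (i - u)) + N * (2 * od (T^[i] n) j) := by
        rw [e3]; ring
      have e6 : N * (i + j - u) = N * (i - u) + N * j := by rw [e0']; ring
      have e7 : N * i = N * u + N * (i - u) := by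
        rw [← Nat.mul_add]
        congr 1
        omega
      rw [e5, e6]
      omega
    · obtain ⟨v, rfl⟩ := Nat.exists_eq_add_of_le hui
      have e1 : T^[i + v] n = T^[v] (T^[i] n) := by
        rw [add_comm, Function.iterate_add_apply]
      have e2 : i + j - (i + v) = j - v := by omega
      rw [e1, e2]
      exact ih v (by omega)

/-- Size against time: `r` = number of stages. -/
theorem Rch_size {N e0 n e m j : ℕ} (h : Rch N e0 n e m j) :
    3 ^ od n j * n ≤ 2 ^ j * m ∧ ∃ r : ℕ, r * (e / 48) ≤ e0 - e ∧ 2 ^ j * m ≤ 2 ^ r * 3 ^ od n j * n := by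
  refine ⟨?_, ?_⟩
  · rw [← (Rch_end h).1]
    exact size_lo n j
  · induction h with
    | base e n h => exact ⟨0, by simp, by simp [od_zero]⟩
    | step e0 n i e m j h hg he hi h1 h2 h' ih =>
      obtain ⟨r, hr1, hr2⟩ := ih
      have hle := (Rch_end h').2.2.2
      refine ⟨r + 1, ?_, ?_⟩
      · have : (r + 1) * (e / 48) = r * (e / 48) + e / 48 := by ring
        rw [this]
        omega
      · have h3 := size_hi (t := i) (by omega) h (by omega)
        rw [od_add]
        calc 2 ^ (i + j) * m = 2 ^ i * (2 ^ j * m) := by rw [pow_add]; ring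
          _ ≤ 2 ^ i * (2 ^ r * 3 ^ od (T^[i] n) j * T^[i] n) := Nat.mul_le_mul_left _ hr2
          _ = 2 ^ r * 3 ^ od (T^[i] n) j * (2 ^ i * T^[i] n) := by ring
          _ ≤ 2 ^ r * 3 ^ od (T^[i] n) j * (2 * 3 ^ od n i * n) := Nat.mul_le_mul_left _ h3
          _ = 2 ^ (r + 1) * 3 ^ (od n i + od (T^[i] n) j) * n := by
            rw [pow_succ, pow_add]; ring

end H62z
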