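import Pool.Agent.Lib.H62z.SkN

set_option autoImplicit false

/-!
Orbit minima below any function tending to infinity, for a set of natural density one.
-/

open Filter

namespace H62z

theorem min_orbit (f : ℕ → ℝ) (hf : Tendsto f atTop atTop) :
    Tendsto (fun x : ℕ => (Set.ncard {n : ℕ | 1 ≤ n ∧ n ≤ x ∧ ∀ k : ℕ, f n ≤ (T^[k] n : ℝ)} : ℝ) / x)
      atTop (nhds 0) := by
  obtain ⟨c, C, hc, hC, hmain⟩ := almost_all 1 one_pos
  rw [Metric.tendsto_atTop]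
  intro η hη
  -- choose `X`
  have h1 : Tendsto (fun X : ℕ => C * (X : ℝ) ^ (-c)) atTop (nhds (C * 0)) :=
    ((tendsto_rpow_neg_atTop hc).comp tendsto_natCast_atTop_atTop).const_mul C
  rw [mul_zero] at h1
  obtain ⟨X, hX1, hX⟩ : ∃ X : ℕ, 1 ≤ X ∧ C * (X : ℝ) ^ (-c) < η / 2 := by
    have h2 := (h1.eventually (gt_mem_nhds (show (0 : ℝ) < η / 2 by positivity))).and
      (eventually_ge_atTop 1)
    obtain ⟨X, hX⟩ := h2.exists
    exact ⟨X, hX.2, hX.1⟩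
  obtain ⟨N0, hN0⟩ := eventually_atTop.1 (hf.eventually_gt_atTop (X : ℝ))
  obtain ⟨x0, hx0⟩ := exists_nat_gt (2 * N0 / η)
  refine ⟨max x0 1, fun x hx => ?_⟩
  have hx1 : 1 ≤ x := (le_max_right _ _).trans hx
  have hx1' : (0 : ℝ) < x := by exact_mod_cast hx1
  have hxx0 : (x0 : ℝ) ≤ x := by exact_mod_cast (le_max_left _ _).trans hx
  rw [Real.dist_eq, sub_zero, abs_of_nonneg (by positivity), div_lt_iff₀ hx1']
  set E : Set ℕ := {n : ℕ | 1 ≤ n ∧ n ≤ x ∧ ¬ ∃ k : ℕ, T^[k] n ≤ X ∧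
    (∀ j < k, T^[k] n < T^[j] n) ∧
    |(k : ℝ) - 2 / Real.log (4 / 3) * Real.log ((n : ℝ) / (T^[k] n : ℝ))| ≤
      1 * Real.log (n : ℝ) + C} with hE
  have hsub : {n : ℕ | 1 ≤ n ∧ n ≤ x ∧ ∀ k : ℕ, f n ≤ (T^[k] n : ℝ)} ⊆
      ↑(Finset.range N0) ∪ E := by
    rintro n ⟨h1, h2, h3⟩
    by_cases hn : n < N0
    · left; simpa using hn
    · right
      refine ⟨h1, h2, ?_⟩
      rintro ⟨k, hk, -⟩
      have h4 := hN0 n (not_lt.1 hn)
      have h5 := h3 k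
      have h6 : ((T^[k] n : ℕ) : ℝ) ≤ X := by exact_mod_cast hk
      linarith
  have hEfin : E.Finite := (Set.finite_Icc 1 x).subset fun n hn => ⟨hn.1, hn.2.1⟩
  have h2 := Set.ncard_le_ncard hsub ((Finset.finite_toSet _).union hEfin)
  have h3 := Set.ncard_union_le (↑(Finset.range N0)) E
  rw [Set.ncard_coe_finset, Finset.card_range] at h3
  have h4 : (Set.ncard {n : ℕ | 1 ≤ n ∧ n ≤ x ∧ ∀ k : ℕ, f n ≤ (T^[k] n : ℝ)} : ℝ) ≤
      N0 + (E.ncard : ℝ) := by exact_mod_cast h2.trans h3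
  have h5 := hmain X x hX1 hx1
  rw [← hE] at h5
  have h6 : (N0 : ℝ) < η / 2 * x := by
    rw [div_lt_iff₀ hη] at hx0
    nlinarith
  have h7 : C * (x : ℝ) * (X : ℝ) ^ (-c) ≤ η / 2 * x := by
    have := mul_le_mul_of_nonneg_right hX.le hx1'.le
    linarith
  linarith

end H62z
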