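import Pool.Agent.Lib.H62z.SkA

set_option autoImplicit false

/-! Chunk G (paths as words). Induction on j: T n has (b', l'); if n is even take (b'+1, l'), if n is odd then 3n+1 = 2^(b'+1) en l' m, take (0, l' ++ [b'+1]).
H62w.PathsA: va_append, en_append, va_iff, en_eq. JJ = H62y.JJ (sum of the first i letters, JJ_append, JJ_all). -/

open Finset
namespace H62z
open H62w

/-- The path from `n` to `m = T^j n` as a word from `m` and `b` doublings. -/
theorem word_rep (j n : ℕ) : ∃ (b : ℕ) (l : List ℕ), (∀ a ∈ l, 1 ≤ a) ∧ va l (T^[j] n) ∧
    n = 2 ^ b * en l (T^[j] n) ∧ b + l.sum = j ∧ l.length = od n j ∧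
    ∀ i ≤ l.length, en (l.take i) (T^[j] n) = T^[j - H62y.JJ l i] n ∧ od (T^[j - H62y.JJ l i] n) (H62y.JJ l i) = i := by
  induction j generalizing n with
  | zero =>
    refine ⟨0, [], by simp, trivial, by simp [en], rfl, by rw [od_zero]; rfl, ?_⟩
    intro i hi
    have hi0 : i = 0 := by simpa using hi
    subst hi0
    refine ⟨rfl, ?_⟩
    rw [H62y.JJ_zero, od_zero]
  | succ j ih =>
    obtain ⟨b, l, h1, h2, h3, h4, h5, h6⟩ := ih (T n)
    have hit : T^[j + 1] n = T^[j] (T n) := Function.iterate_succ_apply T j n
    have hod : od n (j + 1) = (if n % 2 = 1 then 1 else 0) + od (T n) j := by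
      have h := od_add n 1 j
      have h1 : od n 1 = if n % 2 = 1 then 1 else 0 := by
        have h2 := od_succ n 0
        rw [od_zero] at h2
        exact h2.trans (Nat.zero_add _)
      rw [h1, Nat.add_comm 1 j] at h
      exact h
    have hJ : ∀ i, H62y.JJ l i ≤ j := by
      intro i
      have hs : H62y.JJ l i ≤ l.sum := by
        unfold H62y.JJ
        exact (List.take_sublist i l).sum_le_sum (fun _ _ => Nat.zero_le _)
      omega
    have hsub : ∀ i, T^[j + 1 - H62y.JJ l i] n = T^[j - H62y.JJ l i] (T n) := by
      intro i
      have e : j + 1 - H62y.JJ l i = (j - H62y.JJ l i) + 1 := by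
        have := hJ i
        omega
      rw [e]
      exact Function.iterate_succ_apply T _ n
    rw [hit]
    by_cases hn : n % 2 = 1
    · have hT : T n = (3 * n + 1) / 2 := by
        unfold T
        rw [if_neg (by omega)]
      have h7 : 3 * n + 1 = 2 ^ (b + 1) * en l (T^[j] (T n)) := by
        have h8 : 3 * n + 1 = 2 * T n := by rw [hT]; omega
        rw [h8, pow_succ]
        calc 2 * T n = 2 * (2 ^ b * en l (T^[j] (T n))) := by rw [← h3]
          _ = _ := by ring
      have hend : en (l ++ [b + 1]) (T^[j] (T n)) = n := by
        rw [en_append]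
        show (2 ^ (b + 1) * en l (T^[j] (T n)) - 1) / 3 = n
        rw [← h7]
        omega
      have hlen : (l ++ [b + 1]).length = l.length + 1 := by simp
      have hsum : (l ++ [b + 1]).sum = j + 1 := by
        rw [List.sum_append]
        simp only [List.sum_cons, List.sum_nil]
        omega
      refine ⟨0, l ++ [b + 1], ?_, ?_, ?_, ?_, ?_, ?_⟩
      · intro a ha
        rw [List.mem_append, List.mem_singleton] at ha
        rcases ha with ha | rfl
        · exact h1 a ha
        · omega
      · rw [va_append]
        refine ⟨h2, ?_, trivial⟩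
        rw [← h7]
        omega
      · rw [hend, pow_zero, Nat.one_mul]
      · rw [hsum, Nat.zero_add]
      · rw [hlen, hod, if_pos hn, h5, Nat.add_comm]
      · intro i hi
        rw [hlen] at hi
        rcases Nat.lt_or_ge l.length i with h | h
        · have hi' : i = l.length + 1 := by omega
          have hall : H62y.JJ (l ++ [b + 1]) i = j + 1 := by
            rw [H62y.JJ_all (by rw [hlen]; omega), hsum]
          have htake : (l ++ [b + 1]).take i = l ++ [b + 1] := List.take_of_length_le (by rw [hlen]; omega)
          rw [hall, htake, Nat.sub_self, hend]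
          refine ⟨rfl, ?_⟩
          show od n (j + 1) = i
          rw [hod, if_pos hn, ← h5, hi', Nat.add_comm]
        · have hJe : H62y.JJ (l ++ [b + 1]) i = H62y.JJ l i := by
            rw [H62y.JJ_append, show i - l.length = 0 by omega, H62y.JJ_zero, Nat.add_zero]
          have htake : (l ++ [b + 1]).take i = l.take i := List.take_append_of_le_length h
          rw [hJe, htake, hsub]
          exact h6 i h
    · have hT : T n = n / 2 := by
        unfold T
        rw [if_pos (by omega)]
      refine ⟨b + 1, l, h1, h2, ?_, by omega, ?_, ?_⟩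
      · have h7 : n = 2 * T n := by rw [hT]; omega
        rw [pow_succ]
        calc n = 2 * T n := h7
          _ = 2 * (2 ^ b * en l (T^[j] (T n))) := by rw [← h3]
          _ = _ := by ring
      · rw [hod, if_neg hn, Nat.zero_add, h5]
      · intro i hi
        rw [hsub]
        exact h6 i hi

end H62z
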