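import Pool.Agent.Lib.H62z.SkF
import Pool.Agent.Lib.H62z.SkG

set_option autoImplicit false

/-! Chunk H. Words above a first passage point. -/

open Finset
namespace H62z
open H62w

theorem H_take_succ {l : List ℕ} {i : ℕ} (hi : i < l.length) :
    cc (l.take (i + 1)) = 2 ^ l[i] * cc (l.take i) + 3 ^ i ∧
      H62y.JJ l (i + 1) = H62y.JJ l i + l[i] := by
  have h1 : l.take (i + 1) = l.take i ++ [l[i]] := by
    rw [List.take_succ_eq_append_getElem hi]
  constructor
  · rw [h1, cc_concat, List.length_take, Nat.min_eq_left hi.le]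
  · unfold H62y.JJ
    rw [h1, List.sum_append, List.sum_singleton]

theorem H_small {i J : ℕ} (h : 1999 * i ≤ 1000 * J) : (3 : ℝ) ^ i ≤ (4 / 5) ^ i * 2 ^ J := by
  have h1 : (15 : ℕ) ^ i ≤ 2 ^ (J + 2 * i) := by
    have h2 : ((15 : ℕ) ^ i) ^ 100 ≤ (2 ^ (J + 2 * i)) ^ 100 := by
      rw [← pow_mul, ← pow_mul, mul_comm i 100, pow_mul]
      calc ((15 : ℕ) ^ 100) ^ i ≤ (2 ^ 200 * 2 ^ 199) ^ i := Nat.pow_le_pow_left (by norm_num) i
        _ = 2 ^ (399 * i) := by rw [← pow_add, ← pow_mul]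
        _ ≤ 2 ^ ((J + 2 * i) * 100) := Nat.pow_le_pow_right (by norm_num) (by omega)
    exact le_of_pow_le_pow_left₀ (by norm_num) (Nat.zero_le _) h2
  have h3 : (15 : ℝ) ^ i ≤ 2 ^ (J + 2 * i) := by exact_mod_cast h1
  have h4 : (15 : ℝ) ^ i = 3 ^ i * 5 ^ i := by rw [← mul_pow]; norm_num
  have h5 : (2 : ℝ) ^ (J + 2 * i) = 2 ^ J * 4 ^ i := by
    rw [pow_add, pow_mul]; norm_num
  rw [h4, h5] at h3
  rw [div_pow, div_mul_eq_mul_div, le_div_iff₀ (by positivity)]
  linarith

theorem H_cc_aux {M L0 K : ℕ} {l : List ℕ} (hl : l ∈ GT M L0 K) :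
    ∀ i ≤ K, (cc (l.take i) : ℝ) ≤
      ((min i L0 : ℕ) / 3 + 4 / 3 * (1 - (4 / 5 : ℝ) ^ i)) * 2 ^ H62y.JJ l i := by
  obtain ⟨hw, hg⟩ := mem_filter.1 hl
  have hlen := (mem_words.1 hw).1
  intro i
  induction i with
  | zero => intro _; simp [cc]
  | succ i ih =>
    intro hi
    have hiK : i < l.length := by omega
    obtain ⟨e1, e2⟩ := H_take_succ hiK
    have ih' := ih (by omega)
    obtain ⟨g1, g2⟩ := hg (i + 1) (mem_range.2 (by omega))
    have hB : (0 : ℝ) < 2 ^ H62y.JJ l (i + 1) := by positivity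
    have h45 : (4 / 5 : ℝ) ^ (i + 1) = 4 / 5 * (4 / 5) ^ i := by rw [pow_succ]; ring
    have hpos45 : (0 : ℝ) < (4 / 5) ^ i := by positivity
    have hmain : (cc (l.take (i + 1)) : ℝ) ≤
        ((min i L0 : ℕ) / 3 + 4 / 3 * (1 - (4 / 5 : ℝ) ^ i)) * 2 ^ H62y.JJ l (i + 1) + 3 ^ i := by
      rw [e1, e2]
      push_cast
      have h1 : (2 : ℝ) ^ l[i] * (cc (l.take i) : ℝ) ≤ 2 ^ l[i] *
          (((min i L0 : ℕ) / 3 + 4 / 3 * (1 - (4 / 5 : ℝ) ^ i)) * 2 ^ H62y.JJ l i) :=
        mul_le_mul_of_nonneg_left ih' (by positivity)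
      rw [pow_add]
      push_cast at h1 ⊢
      linarith
    refine hmain.trans ?_
    rcases Nat.lt_or_ge i L0 with hiL | hiL
    · have m1 : min i L0 = i := Nat.min_eq_left hiL.le
      have m2 : min (i + 1) L0 = i + 1 := Nat.min_eq_left hiL
      rw [m1, m2]
      have h3 : (3 : ℝ) ^ i * 3 ≤ 2 ^ H62y.JJ l (i + 1) := by
        have : (3 : ℝ) ^ (i + 1) ≤ 2 ^ H62y.JJ l (i + 1) := by exact_mod_cast g1
        rwa [pow_succ] at this
      rw [h45]
      push_cast
      nlinarith [mul_pos hpos45 hB]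
    · have m1 : min i L0 = L0 := Nat.min_eq_right hiL
      have m2 : min (i + 1) L0 = L0 := Nat.min_eq_right (by omega)
      rw [m1, m2]
      have h3 := H_small (g2 (by omega)).2
      rw [pow_succ, h45] at h3
      rw [h45]
      nlinarith

theorem cc_GT {M L0 K : ℕ} {l : List ℕ} (hL : 1 ≤ L0) (hl : l ∈ GT M L0 K) : cc l ≤ (L0 + 1) * 2 ^ l.sum := by
  have hlen := (mem_words.1 (mem_filter.1 hl).1).1
  have h1 := H_cc_aux hl K le_rfl
  rw [← hlen, List.take_length, H62y.JJ_all le_rfl] at h1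
  have h2 : ((min l.length L0 : ℕ) : ℝ) ≤ L0 := by exact_mod_cast Nat.min_le_right _ _
  have h3 : (0 : ℝ) ≤ (4 / 5) ^ l.length := by positivity
  have h4 : (1 : ℝ) ≤ L0 := by exact_mod_cast hL
  have h5 : (0 : ℝ) < 2 ^ l.sum := by positivity
  have h6 : (cc l : ℝ) ≤ (L0 + 1) * 2 ^ l.sum := by
    refine h1.trans (mul_le_mul_of_nonneg_right ?_ h5.le)
    linarith
  exact_mod_cast h6

/-- Good paths give words of `GT`. -/
theorem Rch_word {N e0 n e m j M : ℕ} (hN : 40000 ≤ N) (he : 2000 ≤ e) (h : Rch N e0 n e m j) (hM : 11 * e0 ≤ M) :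
    ∃ (b K : ℕ) (l : List ℕ), b ≤ 11 * e0 ∧ K ≤ 11 * e0 ∧ l ∈ GT M e K ∧ va l m ∧ n = 2 ^ b * en l m ∧
      3 ^ K * en l m ≤ 2 ^ l.sum * m ∧ 2 ^ l.sum * m ≤ 2 * (3 ^ K * en l m) := by
  obtain ⟨hj, hlev, hlev0, hee⟩ := Rch_end h
  have htime := (Rch_time h).2
  have habove := Rch_above h
  have hdev := Rch_dev h
  obtain ⟨b, l, h1, h2, h3, h4, h5, h6⟩ := word_rep j n
  rw [hj] at h2 h3 h6
  have hm : 0 < m := by
    have := hlev.1
    have h0 : 0 < 2 ^ e := by positivity
    omega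
  have hodle : od n j ≤ j := od_le n j
  have hGT : l ∈ GT M e (od n j) := by
    unfold GT
    rw [mem_filter]
    refine ⟨mem_words.2 ⟨h5, fun a ha => ⟨h1 a ha, ?_⟩⟩, ?_⟩
    · have := List.single_le_sum (fun _ _ => Nat.zero_le _) a ha
      omega
    · intro i hi
      rw [mem_range] at hi
      have hi' : i ≤ l.length := by omega
      obtain ⟨k1, k2⟩ := h6 i hi'
      have hJ : H62y.JJ l i ≤ l.sum := by
        unfold H62y.JJ
        conv_rhs => rw [← List.take_append_drop i l, List.sum_append]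
        omega
      have hJj : H62y.JJ l i ≤ j := by omega
      have hva : va (l.take i) m := by
        have := h2
        rw [← List.take_append_drop i l, va_append] at this
        exact this.1
      have hen := en_eq _ _ hva
      have hlt : (l.take i).length = i := by rw [List.length_take]; omega
      rw [hlt, k1] at hen
      refine ⟨?_, ?_⟩
      · have hge : m ≤ T^[j - H62y.JJ l i] n := by
          rcases Nat.eq_zero_or_pos (H62y.JJ l i) with h0 | h0
          · rw [h0, Nat.sub_zero, hj]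
          · exact (hlev.2.trans (habove _ (by omega)).le)
        have : 3 ^ i * m ≤ 2 ^ H62y.JJ l i * m := by
          show 3 ^ i * m ≤ 2 ^ (l.take i).sum * m
          rw [hen]
          exact (Nat.mul_le_mul_left _ hge).trans (Nat.le_add_right _ _)
        exact Nat.le_of_mul_le_mul_right this hm
      · intro hei
        obtain ⟨d1, d2⟩ := hdev (j - H62y.JJ l i) (Nat.sub_le _ _)
        have e1 : j - (j - H62y.JJ l i) = H62y.JJ l i := by omega
        rw [e1, k2] at d1 d2
        have hiJ : i ≤ H62y.JJ l i := by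
          have := od_le (T^[j - H62y.JJ l i] n) (H62y.JJ l i)
          omega
        generalize H62y.JJ l i = J at *
        obtain ⟨N', rfl⟩ := Nat.exists_eq_add_of_le hN
        constructor
        · by_contra hc
          push Not at hc
          have h7 : N' * (2001 * i) ≤ N' * (1000 * J) := Nat.mul_le_mul_left _ hc.le
          nlinarith
        · by_contra hc
          push Not at hc
          have h7 : N' * (1000 * J) ≤ N' * (1999 * i) := Nat.mul_le_mul_left _ hc.le
          nlinarith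
  refine ⟨b, od n j, l, by omega, by omega, hGT, h2, h3, ?_, ?_⟩
  · rw [← h5]
    exact en_le l m h2
  · have h7 := en_eq l m h2
    rw [h5] at h7
    have h8 := cc_GT (by omega) hGT
    have h9 : 4 * (e + 1) ≤ 2 ^ e := by
      have : ∀ e : ℕ, 10 ≤ e → 4 * (e + 1) ≤ 2 ^ e := by
        intro e he
        induction e, he using Nat.le_induction with
        | base => norm_num
        | succ e he ih => rw [pow_succ]; omega
      exact this e (by omega)
    have h10 : 2 * (e + 1) ≤ m := by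
      have := hlev.1
      omega
    have h11 : 2 * ((e + 1) * 2 ^ l.sum) ≤ 2 ^ l.sum * m := by
      calc 2 * ((e + 1) * 2 ^ l.sum) = 2 ^ l.sum * (2 * (e + 1)) := by ring
        _ ≤ 2 ^ l.sum * m := Nat.mul_le_mul_left _ h10
    omega

end H62z
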