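import Pool.Agent.Lib.H62z.Defs
import Pool.Agent.Lib.H62z.SkH
import Pool.Agent.Lib.H78P.SkB
import Pool.Agent.Lib.H78P.SkC1
import Pool.Agent.Lib.H78P.SkA2
import Pool.Agent.Lib.H78P.SkG2
import Pool.Agent.Lib.H62w.Mu

set_option autoImplicit false

/-! Chunk I1 (upper bound propagation, one step). -/

open Finset
namespace H62z
open H62w H78P

theorem I_mem {M L0 L : ℕ} {l : List ℕ} (hL : L0 ≤ L) (hl : l ∈ GT M L0 L) :
    l.length = L ∧ (∀ a ∈ l, 1 ≤ a) ∧ 1000 * l.sum ≤ 2001 * L ∧ 1999 * L ≤ 1000 * l.sum := by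
  unfold GT at hl
  rw [mem_filter, mem_words] at hl
  have h := (hl.2 L (mem_range.2 (Nat.lt_succ_self L))).2 hL
  rw [H62y.JJ_all (by omega)] at h
  exact ⟨hl.1.1, fun a ha => (hl.1.2 a ha).1, h.1, h.2⟩

theorem GT_dens {M L0 L q : ℕ} (hL0 : 1 ≤ L0) (hL : L0 ≤ L) (hq : 20 * q ≤ 3 * L) (y : ℕ) {h : ℕ → ℝ}
    (hh : ∀ z, 0 ≤ h z) (hp : Per q h) :
    sm (GT M L0 L) h y ≤ (3 * (L : ℝ) + 1) * (L + 3) * mn q h := by
  have h1 := dens (G := GT M L0 L) (L := L) (q := q) (B := L0 + 1) (V := 3 * L)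
    (fun l hl => (I_mem hL hl).1) (fun l hl => (I_mem hL hl).2.1)
    (fun l hl => by have := (I_mem hL hl).2.2; omega) (fun l hl => cc_GT hL0 hl)
    (fun l hl => by
      obtain ⟨h2, h3, h4, h5⟩ := I_mem hL hl
      have h6 : (3 ^ (L + q)) ^ 20 ≤ (2 ^ l.sum) ^ 20 := by
        rw [← pow_mul, ← pow_mul]
        calc 3 ^ ((L + q) * 20) ≤ 3 ^ (23 * L) := Nat.pow_le_pow_right (by norm_num) (by omega)
          _ = (3 ^ 23) ^ L := by rw [pow_mul]
          _ ≤ (2 ^ 37) ^ L := Nat.pow_le_pow_left (by norm_num) L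
          _ = 2 ^ (37 * L) := by rw [pow_mul]
          _ ≤ 2 ^ (l.sum * 20) := Nat.pow_le_pow_right (by norm_num) (by omega)
      exact (Nat.pow_le_pow_iff_left (by norm_num)).1 h6) y hh hp
  refine h1.trans ?_
  have hm : 0 ≤ mn q h := by
    unfold mn
    exact div_nonneg (sum_nonneg fun z _ => hh z) (by positivity)
  apply mul_le_mul_of_nonneg_right _ hm
  push_cast
  have : (L0 : ℝ) ≤ L := by exact_mod_cast hL
  apply mul_le_mul_of_nonneg_left _ (by positivity)
  linarith

/-- Dropping conditions on the last letters. -/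
theorem I_drop {M L0 L k q : ℕ} (y : ℕ) :
    sm (GT M L0 (L + k)) (FF M q) y ≤ sm (GT M L0 L) (FF M (k + q)) y := by
  set S : Finset (Σ _ : List ℕ, List ℕ) := ((GT M L0 L).filter (fun l => va l y)).sigma fun u =>
    (words (M + 1) k).filter (fun v => va v (en u y)) with hS
  set f : (Σ _ : List ℕ, List ℕ) → List ℕ := fun x => x.1 ++ x.2 with hf
  have hinj : Set.InjOn f S := by
    rintro ⟨u, v⟩ h ⟨u2, v2⟩ h2 he
    simp only [hS, coe_sigma, Set.mem_sigma_iff, mem_coe, mem_filter] at h h2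
    have e1 : u.length = u2.length := by
      have a1 := (mem_words.1 (mem_filter.1 h.1.1).1).1
      have a2 := (mem_words.1 (mem_filter.1 h2.1.1).1).1
      rw [a1, a2]
    obtain ⟨e2, e3⟩ := List.append_inj he e1
    have e4 : v = v2 := e3
    have e5 : u = u2 := e2
    subst e4 e5
    rfl
  have hR : sm (GT M L0 L) (FF M (k + q)) y = ∑ x ∈ S, ww x.1 * (3 ^ k * pw (M + 1) x.2 * FF M q (en x.2 (en x.1 y))) := by
    rw [hS, sum_sigma]
    unfold sm
    refine sum_congr rfl fun u _ => ?_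
    rw [FF_conv, mul_sum]
  have hI : ∑ l ∈ S.image f, ww l * FF M q (en l y) ≤ ∑ x ∈ S, ww x.1 * (3 ^ k * pw (M + 1) x.2 * FF M q (en x.2 (en x.1 y))) := by
    rw [sum_image hinj]
    refine sum_le_sum fun x hx => ?_
    obtain ⟨u, v⟩ := x
    simp only [hS, mem_sigma, mem_filter] at hx
    show ww (u ++ v) * FF M q (en (u ++ v) y) ≤ ww u * (3 ^ k * pw (M + 1) v * FF M q (en v (en u y)))
    rw [ww_append, en_append, mul_assoc]
    apply mul_le_mul_of_nonneg_left _ (ww_pos u).le
    apply mul_le_mul_of_nonneg_right _ (FF_nonneg M q _)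
    -- ww v ≤ 3 ^ k * pw (M + 1) v
    have hv := mem_words.1 hx.2.1
    have h1 : (1 / 2 : ℝ) ^ v.sum ≤ pw (M + 1) v := by
      have key : ∀ v : List ℕ, (∀ a ∈ v, a ≤ M + 1) → (1 / 2 : ℝ) ^ v.sum ≤ pw (M + 1) v := by
        intro v
        induction v with
        | nil => intro _; simp [pw]
        | cons a v ih =>
          intro h
          have h2 := ih fun b hb => h b (List.mem_cons_of_mem _ hb)
          have h3 : pw (M + 1) (a :: v) = pa (M + 1) a * pw (M + 1) v := by simp [pw]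
          rw [h3, List.sum_cons, pow_add]
          apply mul_le_mul _ h2 (by positivity) (L_pa_nonneg (M + 1) a)
          unfold pa
          split_ifs with hc
          · exact le_rfl
          · apply pow_le_pow_of_le_one (by norm_num) (by norm_num)
            omega
      exact key v fun a ha => (hv.2 a ha).2
    unfold ww
    rw [hv.1, div_eq_mul_one_div]
    apply mul_le_mul_of_nonneg_left _ (by positivity)
    refine le_trans (le_of_eq ?_) h1
    rw [one_div, one_div, inv_pow]
  rw [hR]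
  refine le_trans ?_ hI
  unfold sm
  apply sum_le_sum_of_subset_of_nonneg
  · intro l hl
    rw [mem_filter] at hl
    obtain ⟨hl, hva⟩ := hl
    unfold GT at hl
    rw [mem_filter, mem_words] at hl
    obtain ⟨⟨hlen, hlet⟩, hc⟩ := hl
    have hsplit : l.take L ++ l.drop L = l := List.take_append_drop L l
    rw [mem_image]
    refine ⟨⟨l.take L, l.drop L⟩, ?_, hsplit⟩
    have htl : (l.take L).length = L := by rw [List.length_take]; omega
    rw [hS, mem_sigma, mem_filter, mem_filter]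
    rw [← hsplit, va_append] at hva
    refine ⟨⟨?_, hva.1⟩, ?_, hva.2⟩
    · unfold GT
      rw [mem_filter, mem_words]
      refine ⟨⟨htl, fun a ha => hlet a (List.mem_of_mem_take ha)⟩, fun i hi => ?_⟩
      rw [mem_range] at hi
      have h1 := hc i (mem_range.2 (by omega))
      have h2 : H62y.JJ (l.take L) i = H62y.JJ l i := by
        unfold H62y.JJ
        rw [List.take_take, min_eq_left (by omega)]
      rw [h2]
      exact h1
    · rw [mem_words]
      refine ⟨by rw [List.length_drop]; omega, fun a ha => ?_⟩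
      have := hlet a (List.mem_of_mem_drop ha)
      omega
  · intro l _ _
    exact mul_nonneg (ww_pos l).le (FF_nonneg M q _)

theorem up_step {M L0 L k p q : ℕ} (hM : 1 ≤ M) (hL0 : 1 ≤ L0) (hL : L0 ≤ L) (hq : 20 * (k + q) ≤ 3 * L) (hp : p ≤ k + q) (y : ℕ) :
    sm (GT M L0 (L + k)) (FF M q) y ≤ sm (GT M L0 L) (FF M p) y +
      (3 * (L : ℝ) + 1) * (L + 3) * ∑ n ∈ Ico p (k + q), TH M n := by
  refine (I_drop y).trans ?_
  have h1 : sm (GT M L0 L) (FF M (k + q)) y ≤ sm (GT M L0 L) (FF M p) y +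
      sm (GT M L0 L) (fun z => |FF M (k + q) z - FF M p z|) y := by
    unfold sm
    rw [← sum_add_distrib]
    refine sum_le_sum fun l _ => ?_
    rw [← mul_add]
    apply mul_le_mul_of_nonneg_left _ (ww_pos l).le
    have := le_abs_self (FF M (k + q) (en l y) - FF M p (en l y))
    linarith
  refine h1.trans (add_le_add le_rfl ?_)
  have hper : Per (k + q) (fun z => |FF M (k + q) z - FF M p z|) := by
    intro z
    show |FF M (k + q) z - FF M p z| = |FF M (k + q) (z % 3 ^ (k + q)) - FF M p (z % 3 ^ (k + q))|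
    rw [FF_per M (k + q) z, (Per_mono hp (FF_per M p)) z]
  refine (GT_dens hL0 hL hq y (fun z => abs_nonneg _) hper).trans ?_
  exact mul_le_mul_of_nonneg_left (FF_L1 hM hp) (by positivity)

end H62z
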