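import Pool.Agent.Lib.H62z.SkI1
import Pool.Agent.Lib.H78P.F2

set_option autoImplicit false

/-! Chunk I2 (many steps). TH_super with A = 5: each TH M n with n ≥ L/100 is ≤ C (200/L)^5; the sum of the errors over the stages
L_j = Ls 100 L0 j is ≤ C'/L0 (1/L_j - 1/L_(j+1) telescopes, as in H78P/F2.lean) ≤ 1 for L0 large. First bound: GT_dens with h = FF p, mean 1 (mn_FF). -/

open Finset
namespace H62z
open H62w H78P

private theorem I2_err : ∃ K : ℝ, 0 < K ∧ ∀ M L : ℕ, 100 ≤ L → L ≤ M →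
    (3 * (L : ℝ) + 1) * (L + 3) * ∑ n ∈ Ico (L / 100) (L / 100 + (L + L / 100) / 100), TH M n ≤ K / (L : ℝ) ^ 2 := by
  obtain ⟨C, hC, hTH⟩ := TH_super 5
  refine ⟨8 * (C * (2 * (100 : ℕ)) ^ 5), by positivity, fun M L hL hLM => ?_⟩
  have hLr : (100 : ℝ) ≤ L := by exact_mod_cast hL
  have hsum : ∑ n ∈ Ico (L / 100) (L / 100 + (L + L / 100) / 100), TH M n ≤
      C * (2 * (100 : ℕ)) ^ 5 / (L : ℝ) ^ 4 := by
    have h1 : ∀ n ∈ Ico (L / 100) (L / 100 + (L + L / 100) / 100), TH M n ≤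
        C * ((2 * ((100 : ℕ) : ℝ)) ^ 5 / (L : ℝ) ^ 5) := by
      intro n hn
      rw [Finset.mem_Ico] at hn
      calc TH M n ≤ C / (n : ℝ) ^ 5 := hTH M n (by omega) (by omega)
        _ = C * (1 / (n : ℝ) ^ 5) := by ring
        _ ≤ C * ((2 * ((100 : ℕ) : ℝ)) ^ 5 / (L : ℝ) ^ 5) :=
            mul_le_mul_of_nonneg_left (F1_inv (by norm_num) hL hn.1) hC.le
    have h2 := Finset.sum_le_card_nsmul _ _ _ h1
    rw [Nat.card_Ico, nsmul_eq_mul] at h2
    have h3 : ((L / 100 + (L + L / 100) / 100 - L / 100 : ℕ) : ℝ) ≤ L := by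
      have : L / 100 + (L + L / 100) / 100 - L / 100 ≤ L := by omega
      exact_mod_cast this
    calc ∑ n ∈ Ico (L / 100) (L / 100 + (L + L / 100) / 100), TH M n
        ≤ ((L / 100 + (L + L / 100) / 100 - L / 100 : ℕ) : ℝ) *
          (C * ((2 * ((100 : ℕ) : ℝ)) ^ 5 / (L : ℝ) ^ 5)) := h2
      _ ≤ (L : ℝ) * (C * ((2 * ((100 : ℕ) : ℝ)) ^ 5 / (L : ℝ) ^ 5)) :=
          mul_le_mul_of_nonneg_right h3 (by positivity)
      _ = C * (2 * (100 : ℕ)) ^ 5 / (L : ℝ) ^ 4 := by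
          field_simp
  have h4 : (3 * (L : ℝ) + 1) * (L + 3) ≤ 8 * (L : ℝ) ^ 2 := by nlinarith
  calc (3 * (L : ℝ) + 1) * (L + 3) * ∑ n ∈ Ico (L / 100) (L / 100 + (L + L / 100) / 100), TH M n
      ≤ (3 * (L : ℝ) + 1) * (L + 3) * (C * (2 * (100 : ℕ)) ^ 5 / (L : ℝ) ^ 4) :=
        mul_le_mul_of_nonneg_left hsum (by positivity)
    _ ≤ 8 * (L : ℝ) ^ 2 * (C * (2 * (100 : ℕ)) ^ 5 / (L : ℝ) ^ 4) :=
        mul_le_mul_of_nonneg_right h4 (by positivity)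
    _ = 8 * (C * (2 * (100 : ℕ)) ^ 5) / (L : ℝ) ^ 2 := by
        field_simp

theorem up_multi : ∃ L1 : ℕ, 100 ≤ L1 ∧ ∀ L0 M y j : ℕ, L1 ≤ L0 → Ls 100 L0 j ≤ M →
    sm (GT M L0 (Ls 100 L0 j)) (FF M (Ls 100 L0 j / 100)) y ≤ (3 * (L0 : ℝ) + 1) * (L0 + 3) + 1 := by
  obtain ⟨K, hK, herr⟩ := I2_err
  obtain ⟨L1, hL1⟩ := exists_nat_ge (2 * K)
  refine ⟨max 100 L1, le_max_left _ _, fun L0 M y j hL0 hj => ?_⟩
  have h100 : 100 ≤ L0 := le_trans (le_max_left _ _) hL0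
  have hL0K : 2 * K ≤ L0 := hL1.trans (by exact_mod_cast le_trans (le_max_right _ _) hL0)
  have hL0p : (0 : ℝ) < L0 := by exact_mod_cast (by omega : 0 < L0)
  have key : ∀ j, Ls 100 L0 j ≤ M →
      sm (GT M L0 (Ls 100 L0 j)) (FF M (Ls 100 L0 j / 100)) y ≤
        (3 * (L0 : ℝ) + 1) * (L0 + 3) + 2 * K * (1 / (L0 : ℝ) - 1 / (Ls 100 L0 j : ℝ)) := by
    intro j
    induction j with
    | zero =>
      intro hj
      have h0 : Ls 100 L0 0 = L0 := rfl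
      rw [h0] at hj ⊢
      have h1 := GT_dens (M := M) (L0 := L0) (L := L0) (q := L0 / 100) (by omega) le_rfl (by omega) y
        (FF_nonneg M (L0 / 100)) (FF_per M (L0 / 100))
      rw [mn_FF (by omega), mul_one] at h1
      rw [sub_self, mul_zero, add_zero]
      exact h1
    | succ j ih =>
      intro hj
      have hsucc : Ls 100 L0 (j + 1) = Ls 100 L0 j + Ls 100 L0 j / 100 := rfl
      have hge := Ls_ge 100 L0 j
      have hjM : Ls 100 L0 j ≤ M := (Ls_mono 100 L0 (Nat.le_succ j)).trans hj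
      have h1 := ih hjM
      rw [hsucc]
      set L := Ls 100 L0 j with hL
      have h2 := up_step (M := M) (L0 := L0) (L := L) (k := L / 100) (p := L / 100)
        (q := (L + L / 100) / 100) (by omega) (by omega) hge (by omega) (by omega) y
      have h3 := herr M L (by omega) hjM
      have h4 := F_tele (N := 100) (L := L) (by norm_num) (by omega)
      have h5 : K / (L : ℝ) ^ 2 ≤ K * (2 * (1 / (L : ℝ) - 1 / ((L + L / 100 : ℕ) : ℝ))) := by
        calc K / (L : ℝ) ^ 2 = K * (1 / (L : ℝ) ^ 2) := by ring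
          _ ≤ _ := mul_le_mul_of_nonneg_left h4 hK.le
      linarith
  refine (key j hj).trans ?_
  have h1 : 2 * K * (1 / (L0 : ℝ) - 1 / (Ls 100 L0 j : ℝ)) ≤ 1 := by
    have h3 : (0 : ℝ) ≤ 1 / (Ls 100 L0 j : ℝ) := by positivity
    have h4 : 2 * K * (1 / (L0 : ℝ)) ≤ 1 := by
      rw [mul_one_div, div_le_one hL0p]
      exact hL0K
    have h5 : 0 ≤ 2 * K * (1 / (Ls 100 L0 j : ℝ)) := by positivity
    linarith
  linarith

end H62z
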