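import Pool.Agent.Lib.H62z.Defs
import Pool.Agent.Lib.H78P.SkE2
import Pool.Agent.Lib.H62y.FirstPass

set_option autoImplicit false

/-! Chunk I3 (number of visits). -/

open Finset
namespace H62z
open H62w H78P

theorem I3_pow {s m : ℕ} (hm : 4 ≤ m) (h : (2 : ℝ) ^ s < 2 * 3 ^ m) : 10 * s < 19 * m := by
  by_contra hc
  push Not at hc
  have h1 : (2 : ℝ) ^ (19 * m) ≤ 2 ^ (10 * s) := pow_le_pow_right₀ (by norm_num) hc
  have h2 : (2 : ℝ) ^ (10 * s) < (2 * 3 ^ m) ^ 10 := by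
    rw [mul_comm 10 s, pow_mul]
    exact pow_lt_pow_left₀ h (by positivity) (by norm_num)
  obtain ⟨k, rfl⟩ : ∃ k, m = 4 + k := ⟨m - 4, by omega⟩
  have h3 : ((2 : ℝ) * 3 ^ (4 + k)) ^ 10 = 2 ^ 10 * 3 ^ 40 * (3 ^ 10) ^ k := by
    rw [mul_pow, ← pow_mul, ← pow_mul]
    have : (4 + k) * 10 = 40 + 10 * k := by ring
    rw [this, pow_add]
    ring
  have h4 : (2 : ℝ) ^ (19 * (4 + k)) = 2 ^ 76 * (2 ^ 19) ^ k := by
    rw [← pow_mul, ← pow_add]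
    congr 1
    ring
  have h5 : ((3 : ℝ) ^ 10) ^ k ≤ (2 ^ 19) ^ k := pow_le_pow_left₀ (by norm_num) (by norm_num) k
  have h6 : (2 : ℝ) ^ 10 * 3 ^ 40 ≤ 2 ^ 76 := by norm_num
  have h7 : (2 : ℝ) ^ 10 * 3 ^ 40 * (3 ^ 10) ^ k ≤ 2 ^ 76 * (2 ^ 19) ^ k :=
    mul_le_mul h6 h5 (by positivity) (by positivity)
  linarith

theorem I3_window {ρ : ℝ} (hρ0 : 0 < ρ) (hρ1 : ρ < 1) {M : ℕ}
    (hlow : ∀ k, pr M ((words (M + 1) k).filter (fun l => 10 * l.sum + 0 < 19 * k)) ≤ ρ ^ (k + 0))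
    (n : ℕ) (v Θ : ℝ) (hΘ : 0 < Θ) (hv : Θ < v) :
    H62y.FP.vis (M + 1) Θ n v ≤ 4 + 1 / (1 - ρ) := by
  unfold H62y.FP.vis
  have hterm : ∀ m ∈ range (n + 1), ∑ l ∈ (words (M + 1) m).filter
      (fun l => Θ * 3 ^ m < v * 2 ^ l.sum ∧ v * 2 ^ l.sum ≤ 2 * Θ * 3 ^ m), pw (M + 1) l ≤
      (if m < 4 then 1 else 0) + ρ ^ m := by
    intro m _
    by_cases hm : m < 4
    · rw [if_pos hm]
      have h1 : ∑ l ∈ (words (M + 1) m).filter
        (fun l => Θ * 3 ^ m < v * 2 ^ l.sum ∧ v * 2 ^ l.sum ≤ 2 * Θ * 3 ^ m), pw (M + 1) l ≤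
        ∑ l ∈ words (M + 1) m, pw (M + 1) l :=
        sum_le_sum_of_subset_of_nonneg (filter_subset _ _) fun l _ _ => L_pw_nonneg (M + 1) l
      have h2 : ∑ l ∈ words (M + 1) m, pw (M + 1) l = 1 := pw_sum (by omega) m
      have h3 : 0 ≤ ρ ^ m := by positivity
      linarith
    · rw [if_neg hm, zero_add]
      have h1 := hlow m
      rw [add_zero] at h1
      refine le_trans ?_ h1
      unfold pr
      apply sum_le_sum_of_subset_of_nonneg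
      · intro l hl
        rw [mem_filter] at hl ⊢
        refine ⟨hl.1, ?_⟩
        rw [add_zero]
        apply I3_pow (by omega)
        have h2 : Θ * 2 ^ l.sum < v * 2 ^ l.sum := mul_lt_mul_of_pos_right hv (by positivity)
        have h3 : Θ * 2 ^ l.sum < Θ * (2 * 3 ^ m) := by
          calc Θ * 2 ^ l.sum < v * 2 ^ l.sum := h2
            _ ≤ 2 * Θ * 3 ^ m := hl.2.2
            _ = Θ * (2 * 3 ^ m) := by ring
        exact lt_of_mul_lt_mul_left h3 hΘ.le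
      · intro l _ _
        exact L_pw_nonneg (M + 1) l
  refine (sum_le_sum hterm).trans ?_
  rw [sum_add_distrib]
  have h1 : ∑ m ∈ range (n + 1), (if m < 4 then (1 : ℝ) else 0) ≤ 4 := by
    rw [← sum_filter, sum_const, nsmul_eq_mul, mul_one]
    have : ((range (n + 1)).filter (fun m => m < 4)).card ≤ (range 4).card := by
      apply card_le_card
      intro m hm
      rw [mem_filter] at hm
      exact mem_range.mpr hm.2
    rw [card_range] at this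
    exact_mod_cast this
  have h2 : ∑ m ∈ range (n + 1), ρ ^ m ≤ 1 / (1 - ρ) := by
    rw [one_div, ← tsum_geometric_of_lt_one hρ0.le hρ1]
    exact (summable_geometric_of_lt_one hρ0.le hρ1).sum_le_tsum _ fun _ _ => by positivity
  linarith

theorem I3_all {ρ : ℝ} (hρ0 : 0 < ρ) (hρ1 : ρ < 1) {M : ℕ}
    (hlow : ∀ k, pr M ((words (M + 1) k).filter (fun l => 10 * l.sum + 0 < 19 * k)) ≤ ρ ^ (k + 0))
    (Θ : ℝ) (hΘ : 0 < Θ) (n : ℕ) : ∀ v : ℝ, H62y.FP.vis (M + 1) Θ n v ≤ 4 + 1 / (1 - ρ) := by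
  have hC : 0 ≤ 1 / (1 - ρ) := by
    have : 0 < 1 - ρ := by linarith
    positivity
  induction n with
  | zero =>
    intro v
    rw [H62y.FP.vis_zero]
    split_ifs <;> linarith
  | succ n ih =>
    intro v
    by_cases hv : Θ < v ∧ v ≤ 2 * Θ
    · exact I3_window hρ0 hρ1 hlow (n + 1) v Θ hΘ hv.1
    · rw [H62y.FP.vis_succ, if_neg hv, zero_add]
      calc ∑ a ∈ Icc 1 (M + 1), pa (M + 1) a * H62y.FP.vis (M + 1) Θ n (v * 2 ^ a / 3)
          ≤ ∑ a ∈ Icc 1 (M + 1), pa (M + 1) a * (4 + 1 / (1 - ρ)) := by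
            apply sum_le_sum
            intro a _
            exact mul_le_mul_of_nonneg_left (ih _) (L_pa_nonneg _ a)
        _ = 4 + 1 / (1 - ρ) := by
            rw [← sum_mul, L_pa_sum (by omega), one_mul]

theorem visits : ∃ Cv : ℝ, 1 ≤ Cv ∧ ∀ M m2 : ℕ, 20 ≤ M → ∀ v Θ : ℝ, 0 < v → 0 < Θ →
    ∑ m ∈ range (m2 + 1), ∑ l ∈ (words (M + 1) m).filter
      (fun l => Θ * 3 ^ m < v * 2 ^ l.sum ∧ v * 2 ^ l.sum ≤ 2 * Θ * 3 ^ m), pw (M + 1) l ≤ Cv := by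
  obtain ⟨ρ, hρ0, hρ1, hlow⟩ := low_tail
  have hC : 0 ≤ 1 / (1 - ρ) := by
    have : 0 < 1 - ρ := by linarith
    positivity
  refine ⟨4 + 1 / (1 - ρ), by linarith, fun M m2 hM v Θ _ hΘ => ?_⟩
  exact I3_all hρ0 hρ1 (fun k => hlow M k 0 hM) Θ hΘ m2 v

end H62z
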