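import Pool.Agent.Lib.H62z.SkI1
import Pool.Agent.Lib.H62z.SkI3
import Pool.Agent.Lib.H62y.LastStage

set_option autoImplicit false

/-! Chunk I4 (last stage, upper bound). -/

open Finset
namespace H62z
open H62w H78P

theorem Q_cell_diff (M k p b : ℕ) (hp : p ≤ k) (P : ℕ → Prop) [DecidablePred P] :
    3 ^ k * ∑ s ∈ (range (M * k + 1)).filter P, jl M k k s b ≤
      3 ^ p * ∑ s ∈ (range (M * k + 1)).filter P, jl M k p s b + H62y.Em M k p b := by
  have h1 : (3 : ℝ) ^ p = 3 ^ k * (1 / 3) ^ (k - p) := by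
    have : k = p + (k - p) := by omega
    nth_rw 1 [this]
    rw [pow_add, mul_assoc, ← mul_pow]
    norm_num
  rw [h1, mul_assoc, H62y.Em, ← mul_add]
  apply mul_le_mul_of_nonneg_left _ (by positivity)
  rw [mul_sum]
  have h2 : ∑ s ∈ (range (M * k + 1)).filter P, |jl M k k s b - (1 / 3) ^ (k - p) * jl M k p s b| ≤
      ∑ s ∈ range (M * k + 1), |jl M k k s b - (1 / 3) ^ (k - p) * jl M k p s b| :=
    sum_le_sum_of_subset_of_nonneg (filter_subset _ _) fun _ _ _ => abs_nonneg _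
  have h3 : ∑ s ∈ (range (M * k + 1)).filter P, jl M k k s b ≤
      ∑ s ∈ (range (M * k + 1)).filter P, (1 / 3 : ℝ) ^ (k - p) * jl M k p s b +
      ∑ s ∈ (range (M * k + 1)).filter P, |jl M k k s b - (1 / 3) ^ (k - p) * jl M k p s b| := by
    rw [← sum_add_distrib]
    refine sum_le_sum fun s _ => ?_
    have := le_abs_self (jl M k k s b - (1 / 3) ^ (k - p) * jl M k p s b)
    linarith
  linarith

open Classical in
/-- One node. -/
theorem Q_node {Cv : ℝ} (hv : ∀ M m2 : ℕ, 20 ≤ M → ∀ v Θ : ℝ, 0 < v → 0 < Θ →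
    ∑ m ∈ range (m2 + 1), ∑ l ∈ (words (M + 1) m).filter
      (fun l => Θ * 3 ^ m < v * 2 ^ l.sum ∧ v * 2 ^ l.sum ≤ 2 * Θ * 3 ^ m), pw (M + 1) l ≤ Cv)
    {M L p m2 b : ℕ} (hM : 20 ≤ M) {u : List ℕ} (hu : u.length = L) {Θ : ℝ} (hΘ : 0 < Θ) :
    ∑ m ∈ range (m2 + 1), ∑ l' ∈ (words M (p + m)).filter (fun l' => va l' b ∧ Cell Θ (u ++ l')), ww l' ≤
      Cv * FF M p b + ∑ m ∈ range (m2 + 1), H62y.Em (M + 1) (p + m) p b := by
  have h1 : ∀ m ∈ range (m2 + 1),
      ∑ l' ∈ (words M (p + m)).filter (fun l' => va l' b ∧ Cell Θ (u ++ l')), ww l' ≤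
      3 ^ p * ∑ w ∈ (words (M + 1) p).filter (fun w => 2 ^ w.sum * b ≡ cc w [MOD 3 ^ p]), pw (M + 1) w *
        ∑ v ∈ (words (M + 1) m).filter (fun v => H62y.cellP Θ (L + (p + m)) u.sum (w.sum + v.sum)), pw (M + 1) v +
        H62y.Em (M + 1) (p + m) p b := by
    intro m _
    have a1 : ∑ l' ∈ (words M (p + m)).filter (fun l' => va l' b ∧ Cell Θ (u ++ l')), ww l' ≤
        3 ^ (p + m) * ∑ l' ∈ (words (M + 1) (p + m)).filter (fun l' => 2 ^ l'.sum * b ≡ cc l' [MOD 3 ^ (p + m)] ∧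
          H62y.cellP Θ (L + (p + m)) u.sum l'.sum), pw (M + 1) l' := by
      have e1 : ∀ l' ∈ (words M (p + m)).filter (fun l' => va l' b ∧ Cell Θ (u ++ l')), ww l' =
          3 ^ (p + m) * pw (M + 1) l' := fun l' hl' => ww_of_words (mem_filter.1 hl').1
      rw [sum_congr rfl e1, mul_sum]
      apply sum_le_sum_of_subset_of_nonneg
      · intro l' hl'
        rw [mem_filter] at hl' ⊢
        have hlen := (mem_words.1 hl'.1).1
        refine ⟨words_mono (by omega) _ hl'.1, ?_, ?_⟩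
        · have := (va_iff l' b).1 hl'.2.1
          rwa [hlen] at this
        · have hc := hl'.2.2
          unfold Cell at hc
          rw [List.length_append, List.sum_append, hu, hlen] at hc
          exact hc
      · intro l' _ _
        exact mul_nonneg (by positivity) (L_pw_nonneg (M + 1) l')
    refine a1.trans ?_
    rw [H62y.sum_valid_jl (M + 1) (p + m) b (H62y.cellP Θ (L + (p + m)) u.sum)]
    refine (Q_cell_diff (M + 1) (p + m) p b (by omega) _).trans ?_
    rw [H62y.cell_split (by omega)]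
  refine (sum_le_sum h1).trans ?_
  rw [sum_add_distrib]
  refine add_le_add ?_ le_rfl
  rw [← mul_sum, sum_comm]
  have h2 : Cv * FF M p b = 3 ^ p * ∑ w ∈ (words (M + 1) p).filter (fun w => 2 ^ w.sum * b ≡ cc w [MOD 3 ^ p]),
      pw (M + 1) w * Cv := by
    unfold FF mu
    rw [← sum_mul]
    ring
  rw [h2]
  apply mul_le_mul_of_nonneg_left _ (by positivity)
  refine sum_le_sum fun w _ => ?_
  rw [← mul_sum]
  apply mul_le_mul_of_nonneg_left _ (L_pw_nonneg (M + 1) w)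
  refine le_trans (le_of_eq ?_) (hv M m2 hM (2 ^ (u.sum + w.sum) / 3 ^ (L + p)) Θ (by positivity) hΘ)
  refine sum_congr rfl fun m _ => sum_congr ?_ fun _ _ => rfl
  ext v
  simp only [mem_filter]
  refine and_congr_right fun _ => ?_
  unfold H62y.cellP
  have e1 : (2 : ℝ) ^ (u.sum + (w.sum + v.sum)) = 2 ^ (u.sum + w.sum) * 2 ^ v.sum := by
    rw [← pow_add]; congr 1; ring
  have e2 : (3 : ℝ) ^ (L + (p + m)) = 3 ^ (L + p) * 3 ^ m := by
    rw [← pow_add]; congr 1; ring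
  have e3 : (0 : ℝ) < 3 ^ (L + p) := by positivity
  rw [e1, e2, div_mul_eq_mul_div, lt_div_iff₀ e3, div_le_iff₀ e3]
  constructor
  · rintro ⟨b1, b2⟩
    exact ⟨by linarith, by linarith⟩
  · rintro ⟨b1, b2⟩
    exact ⟨by linarith, by linarith⟩

/-- Mean of the error. -/
theorem Q_err {M k p : ℕ} (hp : p ≤ k) : mn k (H62y.Em (M + 1) k p) ≤ ∑ n ∈ Ico p k, TH M n := by
  unfold mn
  rw [div_le_iff₀ (by positivity)]
  have h1 : ∑ z ∈ range (3 ^ k), H62y.Em (M + 1) k p z = 3 ^ k * ∑ s ∈ range ((M + 1) * k + 1), ∑ b ∈ range (3 ^ k),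
      |jl (M + 1) k k s b - (1 / 3) ^ (k - p) * jl (M + 1) k p s b| := by
    unfold H62y.Em
    rw [← mul_sum, sum_comm]
  rw [h1, mul_comm]
  apply mul_le_mul_of_nonneg_right _ (by positivity)
  refine (H62y.jl_L1 (by omega) k p hp).trans ?_
  refine sum_le_sum fun n hn => ?_
  rw [mem_Ico] at hn
  exact H62y.tt_le (by omega) hn.2

open Classical in
theorem last_up : ∃ Cv : ℝ, 1 ≤ Cv ∧ ∃ L1 : ℕ, 100 ≤ L1 ∧ ∀ L0 L M y : ℕ, L1 ≤ L0 → L0 ≤ L → 2 * L ≤ M → ∀ Θ : ℝ, 0 < Θ →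
    ∑ l ∈ (GT M L0 L).filter (fun l => va l y), ww l * ∑ m ∈ range (10 * (L / 100) + 1),
      ∑ l' ∈ (words M (L / 100 + m)).filter (fun l' => va l' (en l y) ∧ Cell Θ (l ++ l')), ww l' ≤
    Cv * sm (GT M L0 L) (FF M (L / 100)) y + 1 := by
  obtain ⟨Cv, hCv, hv⟩ := visits
  obtain ⟨C, hC, hTH⟩ := TH_super 8
  obtain ⟨L1, hL1⟩ := exists_nat_ge (max 200 (200 ^ 6 * (C * 2000)))
  refine ⟨Cv, hCv, L1, ?_, fun L0 L M y hL0 hL hM Θ hΘ => ?_⟩
  · have : (200 : ℝ) ≤ L1 := le_trans (le_max_left _ _) hL1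
    have : 200 ≤ L1 := by exact_mod_cast this
    omega
  have hL200 : 200 ≤ L1 := by
    have : (200 : ℝ) ≤ L1 := le_trans (le_max_left _ _) hL1
    exact_mod_cast this
  set p := L / 100 with hp
  have hpL : 100 * p ≤ L := Nat.mul_div_le L 100
  have hp2 : L < 100 * (p + 1) := Nat.lt_mul_div_succ L (by norm_num)
  have hp1 : 2 ≤ p := by omega
  -- pointwise
  have h1 : ∑ l ∈ (GT M L0 L).filter (fun l => va l y), ww l * ∑ m ∈ range (10 * p + 1),
      ∑ l' ∈ (words M (p + m)).filter (fun l' => va l' (en l y) ∧ Cell Θ (l ++ l')), ww l' ≤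
      ∑ l ∈ (GT M L0 L).filter (fun l => va l y), (Cv * (ww l * FF M p (en l y)) +
        ∑ m ∈ range (10 * p + 1), ww l * H62y.Em (M + 1) (p + m) p (en l y)) := by
    refine sum_le_sum fun l hl => ?_
    have hw := (mem_filter.1 (mem_filter.1 hl).1).1
    have := Q_node hv (M := M) (p := p) (m2 := 10 * p) (b := en l y) (by omega) (mem_words.1 hw).1 hΘ
    have h2 := mul_le_mul_of_nonneg_left this (ww_pos l).le
    refine h2.trans (le_of_eq ?_)
    rw [mul_add, mul_sum]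
    ring
  refine h1.trans ?_
  rw [sum_add_distrib, ← mul_sum]
  refine add_le_add (le_of_eq rfl) ?_
  rw [sum_comm]
  -- the errors
  have hD : ∀ m ∈ range (10 * p + 1), ∑ l ∈ (GT M L0 L).filter (fun l => va l y),
      ww l * H62y.Em (M + 1) (p + m) p (en l y) ≤ (3 * (L : ℝ) + 1) * (L + 3) * (10 * p * (C / (p : ℝ) ^ 8)) := by
    intro m hm
    rw [mem_range] at hm
    have a1 : ∑ l ∈ (GT M L0 L).filter (fun l => va l y), ww l * H62y.Em (M + 1) (p + m) p (en l y) =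
        sm (GT M L0 L) (H62y.Em (M + 1) (p + m) p) y := rfl
    rw [a1]
    refine (GT_dens (q := p + m) (by omega) hL (by omega) y (H62y.Em_nonneg (M + 1) (p + m) p)
      (fun z => H62y.Em_mod (by omega) z)).trans ?_
    apply mul_le_mul_of_nonneg_left _ (by positivity)
    refine (Q_err (by omega)).trans ?_
    have a2 : ∀ n ∈ Ico p (p + m), TH M n ≤ C / (p : ℝ) ^ 8 := by
      intro n hn
      rw [mem_Ico] at hn
      refine (hTH M n (by omega) (by omega)).trans ?_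
      have hp0 : (0 : ℝ) < p := by
        have : 0 < p := by omega
        exact_mod_cast this
      apply div_le_div_of_nonneg_left hC.le (by positivity)
      apply pow_le_pow_left₀ hp0.le
      exact_mod_cast hn.1
    refine (sum_le_card_nsmul _ _ _ a2).trans ?_
    rw [Nat.card_Ico, nsmul_eq_mul]
    apply mul_le_mul_of_nonneg_right _ (by positivity)
    have : p + m - p ≤ 10 * p := by omega
    calc ((p + m - p : ℕ) : ℝ) ≤ ((10 * p : ℕ) : ℝ) := by exact_mod_cast this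
      _ = 10 * (p : ℝ) := by push_cast; ring
  refine (sum_le_sum hD).trans ?_
  rw [sum_const, card_range, nsmul_eq_mul]
  push_cast
  have hp0 : (0 : ℝ) < p := by
    have : 0 < p := by omega
    exact_mod_cast this
  have hLp : (L : ℝ) ≤ 200 * p := by
    have : L ≤ 200 * p := by omega
    exact_mod_cast this
  have hLr : (0 : ℝ) ≤ L := Nat.cast_nonneg L
  have hp2' : (2 : ℝ) ≤ p := by exact_mod_cast hp1
  have b1 : (3 * (L : ℝ) + 1) ≤ 601 * p := by linarith
  have b2 : ((L : ℝ) + 3) ≤ 202 * p := by linarith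
  have b3 : (10 * (p : ℝ) + 1) ≤ 11 * p := by linarith
  have b4 : (3 * (L : ℝ) + 1) * (L + 3) ≤ (601 * p) * (202 * p) := mul_le_mul b1 b2 (by positivity) (by positivity)
  have b5 : (10 * (p : ℝ) + 1) * ((3 * (L : ℝ) + 1) * (L + 3) * (10 * p * (C / (p : ℝ) ^ 8))) ≤
      (11 * p) * ((601 * p) * (202 * p) * (10 * p * (C / (p : ℝ) ^ 8))) := by
    apply mul_le_mul b3 _ (by positivity) (by positivity)
    exact mul_le_mul_of_nonneg_right b4 (by positivity)
  refine b5.trans ?_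
  have b6 : (11 * (p : ℝ)) * ((601 * p) * (202 * p) * (10 * p * (C / (p : ℝ) ^ 8))) = 13354220 * C / p ^ 4 := by
    field_simp
    ring
  rw [b6, div_le_one (by positivity)]
  have b7 : (200 : ℝ) ^ 6 * (C * 2000) ≤ 200 * p := by
    have : (200 : ℝ) ^ 6 * (C * 2000) ≤ L1 := le_trans (le_max_right _ _) hL1
    have h2 : (L1 : ℝ) ≤ L := by exact_mod_cast hL0.trans hL
    linarith
  have b8 : (p : ℝ) ≤ p ^ 4 := by
    have : (1 : ℝ) ≤ p ^ 3 := one_le_pow₀ (by linarith)
    nlinarith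
  have b9 : (200 : ℝ) ^ 6 * (C * 2000) = 200 * (640000000000000 * C) := by ring
  rw [b9] at b7
  have b10 : 640000000000000 * C ≤ p := by linarith
  have b11 : 13354220 * C ≤ 640000000000000 * C := mul_le_mul_of_nonneg_right (by norm_num) hC.le
  linarith

end H62z
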