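import Pool.Agent.Lib.H62z.SkI1

set_option autoImplicit false

/-! Chunk I5 (short words). For fixed K there is at most one value s = |l| with Cell (ratio 2), and H78P.dens_fiber with q = 0 (3^K ≤ 2^s, cc_GT) gives
at most L0+3 for the sum of the weights. Sum over K ≤ 4 L0. -/

open Finset
namespace H62z
open H62w H78P

theorem I5_sum_eq {Θ : ℝ} {l l' : List ℕ} (hlen : l.length = l'.length) (h : Cell Θ l) (h' : Cell Θ l') :
    l.sum = l'.sum := by
  obtain ⟨a1, a2⟩ := h
  obtain ⟨b1, b2⟩ := h'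
  rw [hlen] at a1 a2
  have e1 : (2:ℝ) ^ l.sum < 2 ^ (l'.sum + 1) := by
    rw [pow_succ]; linarith
  have e2 : (2:ℝ) ^ l'.sum < 2 ^ (l.sum + 1) := by
    rw [pow_succ]; linarith
  have f1 := (pow_lt_pow_iff_right₀ (by norm_num : (1:ℝ) < 2)).mp e1
  have f2 := (pow_lt_pow_iff_right₀ (by norm_num : (1:ℝ) < 2)).mp e2
  omega

open Classical in
theorem short_mass {M L0 : ℕ} (hL0 : 1 ≤ L0) (y : ℕ) (Θ : ℝ) (hΘ : 0 < Θ) :
    ∑ K ∈ range (4 * L0 + 1), ∑ l ∈ (GT M L0 K).filter (fun l => va l y ∧ Cell Θ l), ww l ≤ (4 * (L0 : ℝ) + 1) * (L0 + 3) := by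
  have key : ∀ K : ℕ, ∑ l ∈ (GT M L0 K).filter (fun l => va l y ∧ Cell Θ l), ww l ≤ (L0 : ℝ) + 3 := by
    intro K
    rcases ((GT M L0 K).filter (fun l => va l y ∧ Cell Θ l)).eq_empty_or_nonempty with hE | ⟨l0, hl0⟩
    · rw [hE, sum_empty]; positivity
    · rw [mem_filter] at hl0
      have hmem : ∀ l ∈ GT M L0 K, l.length = K ∧ (∀ a ∈ l, 1 ≤ a) ∧ 3 ^ K ≤ 2 ^ l.sum := by
        intro l hl
        unfold GT at hl
        rw [mem_filter, mem_words] at hl
        refine ⟨hl.1.1, fun a ha => (hl.1.2 a ha).1, ?_⟩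
        have := (hl.2 K (mem_range.mpr (Nat.lt_succ_self K))).1
        rwa [H62y.JJ_all (le_of_eq hl.1.1)] at this
      have h := dens_fiber (G := (GT M L0 K).filter (fun l => l.sum = l0.sum)) (L := K) (q := 0)
        (s := l0.sum) (B := L0 + 1) (fun l hl => (hmem l (mem_filter.mp hl).1).1)
        (fun l hl => (hmem l (mem_filter.mp hl).1).2.1) (fun l hl => (mem_filter.mp hl).2)
        (fun l hl => by
          rw [mem_filter] at hl
          rw [← hl.2]
          exact cc_GT hL0 hl.1) (by rw [add_zero]; exact (hmem l0 hl0.1).2.2) y 0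
      refine (sum_le_sum_of_subset_of_nonneg ?_ ?_).trans (h.trans ?_)
      · intro l hl
        rw [mem_filter] at hl
        rw [mem_filter, mem_filter]
        refine ⟨⟨hl.1, ?_⟩, hl.2.1, by rw [pow_zero, Nat.mod_one]⟩
        exact I5_sum_eq ((hmem l hl.1).1.trans (hmem l0 hl0.1).1.symm) hl.2.2 hl0.2.2
      · intro l _ _
        exact B_ww_nonneg l
      · push_cast
        rw [pow_zero, div_one]
        linarith
  refine (sum_le_sum fun K _ => key K).trans (le_of_eq ?_)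
  rw [sum_const, card_range, nsmul_eq_mul]
  push_cast
  ring

end H62z
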