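import Pool.Agent.Lib.H62z.SkI2
import Pool.Agent.Lib.H62z.SkI4
import Pool.Agent.Lib.H62z.SkI5

set_option autoImplicit false

/-! Chunk I6 (mass bound). window: if two words of GT of lengths K1, K2 > L0 are in the same cell then K2 ≤ 1.01 K1 + 10 (2^s/3^K with |s - 2K| ≤ K/1000,
log 2, log 3: H62y.log3_gt, log3_lt). mass_bound: lengths ≤ 4 L0 by short_mass; if a length > 4 L0 occurs, let K1 be the smallest one, j maximal with
Ls 100 L0 j + Ls 100 L0 j / 100 ≤ K1; then all lengths are in [L + L/100, L + 11 (L/100)] with L = Ls 100 L0 j (L0 large), split off the first L letters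
(GT is closed under initial segments) and use last_up and up_multi. -/

open Finset
namespace H62z
open H62w H78P

theorem I6_sum {M L0 K : ℕ} {l : List ℕ} (h : l ∈ GT M L0 K) (hK : L0 ≤ K) :
    1000 * l.sum ≤ 2001 * K ∧ 1999 * K ≤ 1000 * l.sum := by
  rw [GT, mem_filter] at h
  have hlen : l.length = K := (mem_words.1 h.1).1
  have h1 := (h.2 K (mem_range.2 (by omega))).2 hK
  rwa [H62y.JJ_all (by omega)] at h1

theorem I6_len {M L0 K : ℕ} {l : List ℕ} (h : l ∈ GT M L0 K) : l.length = K := by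
  rw [GT, mem_filter] at h
  exact (mem_words.1 h.1).1

theorem window {M L0 K1 K2 : ℕ} {l1 l2 : List ℕ} {Θ : ℝ} (hL0 : 100 ≤ L0) (hΘ : 0 < Θ) (h1 : l1 ∈ GT M L0 K1) (h2 : l2 ∈ GT M L0 K2)
    (hK1 : L0 ≤ K1) (hK2 : L0 ≤ K2) (hc1 : Cell Θ l1) (hc2 : Cell Θ l2) : 100 * K2 ≤ 101 * K1 + 1000 := by
  have hs1 := (I6_sum h1 hK1).1
  have hs2 := (I6_sum h2 hK2).2
  have e1 := I6_len h1
  have e2 := I6_len h2
  have hA := hc1.1
  have hB := hc2.2
  rw [e1] at hA
  rw [e2] at hB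
  have p1 : (0:ℝ) < 2 ^ l1.sum := by positivity
  have p2 : (0:ℝ) < 2 ^ l2.sum := by positivity
  have p3 : (0:ℝ) < 3 ^ K1 := by positivity
  have p4 : (0:ℝ) < 3 ^ K2 := by positivity
  have key : (2:ℝ) ^ l2.sum * 3 ^ K1 ≤ 2 * 2 ^ l1.sum * 3 ^ K2 := by
    calc (2:ℝ) ^ l2.sum * 3 ^ K1 ≤ (2 * Θ * 3 ^ K2) * 3 ^ K1 := by gcongr
      _ = 2 * 3 ^ K2 * (Θ * 3 ^ K1) := by ring
      _ ≤ 2 * 3 ^ K2 * 2 ^ l1.sum := by gcongr
      _ = _ := by ring
  have hlog := Real.log_le_log (by positivity) key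
  rw [Real.log_mul (by positivity) (by positivity), Real.log_mul (by positivity) (by positivity),
    Real.log_mul (by positivity) (by positivity), Real.log_pow, Real.log_pow, Real.log_pow,
    Real.log_pow] at hlog
  have a1 : (1000 : ℝ) * (l1.sum : ℝ) ≤ 2001 * K1 := by exact_mod_cast hs1
  have a2 : (1999 : ℝ) * (K2 : ℝ) ≤ 1000 * l2.sum := by exact_mod_cast hs2
  have q1 := H62y.log3_gt
  have q2 := H62y.log3_lt
  have q3 := Real.log_two_gt_d9
  have q4 := Real.log_two_lt_d9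
  have k1 : (0:ℝ) ≤ K1 := by positivity
  have k2 : (0:ℝ) ≤ K2 := by positivity
  have b1 : (1999 : ℝ) * (K2 : ℝ) * Real.log 2 ≤ 1000 * l2.sum * Real.log 2 := by
    gcongr
  have b2 : (1000 : ℝ) * (l1.sum : ℝ) * Real.log 2 ≤ 2001 * K1 * Real.log 2 := by
    gcongr
  have b3 : (K2 : ℝ) * Real.log 3 ≤ K2 * (1098893 / 1000000) := by gcongr
  have b4 : (K1 : ℝ) * (1098572 / 1000000) ≤ K1 * Real.log 3 := by gcongr
  have b5 : (1999 : ℝ) * (K2 : ℝ) * 0.6931471803 ≤ 1999 * (K2 : ℝ) * Real.log 2 := by gcongr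
  have b6 : (2001 : ℝ) * K1 * Real.log 2 ≤ 2001 * K1 * 0.6931471808 := by gcongr
  have : (100 : ℝ) * K2 ≤ 101 * K1 + 1000 := by nlinarith
  exact_mod_cast this

/-- initial segments -/
theorem I6_take {M L0 L K : ℕ} {l l' : List ℕ} (h : l ++ l' ∈ GT M L0 K) (hl : l.length = L) (hLK : L ≤ K) :
    l ∈ GT M L0 L := by
  rw [GT, mem_filter] at h ⊢
  obtain ⟨h1, h2⟩ := h
  rw [mem_words] at h1 ⊢
  refine ⟨⟨hl, fun a ha => h1.2 a (List.mem_append_left _ ha)⟩, fun i hi => ?_⟩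
  rw [mem_range] at hi
  have h3 := h2 i (mem_range.2 (by omega))
  rw [H62y.JJ_append, show i - l.length = 0 by omega, H62y.JJ_zero, add_zero] at h3
  exact h3

open Classical in
theorem I6_split {M L0 L k : ℕ} (y : ℕ) (Θ : ℝ) :
    ∑ l ∈ (GT M L0 (L + k)).filter (fun l => va l y ∧ Cell Θ l), ww l ≤
      ∑ l ∈ (GT M L0 L).filter (fun l => va l y), ww l *
        ∑ l' ∈ (words M k).filter (fun l' => va l' (en l y) ∧ Cell Θ (l ++ l')), ww l' := by
  have e1 : ∑ l ∈ (GT M L0 (L + k)).filter (fun l => va l y ∧ Cell Θ l), ww l =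
      ∑ l ∈ words M (L + k), (if l ∈ GT M L0 (L + k) ∧ va l y ∧ Cell Θ l then ww l else 0) := by
    rw [← sum_filter]
    refine sum_congr ?_ fun _ _ => rfl
    ext l
    simp only [mem_filter]
    constructor
    · rintro ⟨h1, h2⟩
      exact ⟨(mem_filter.1 h1).1, h1, h2⟩
    · rintro ⟨_, h1, h2⟩
      exact ⟨h1, h2⟩
  rw [e1, L_sum_words_add]
  have e2 : ∑ l ∈ (GT M L0 L).filter (fun l => va l y), ww l *
        ∑ l' ∈ (words M k).filter (fun l' => va l' (en l y) ∧ Cell Θ (l ++ l')), ww l' =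
      ∑ l ∈ words M L, ∑ l' ∈ words M k,
        (if (l ∈ GT M L0 L ∧ va l y) ∧ va l' (en l y) ∧ Cell Θ (l ++ l') then ww l * ww l' else 0) := by
    have : (GT M L0 L).filter (fun l => va l y) = (words M L).filter (fun l => l ∈ GT M L0 L ∧ va l y) := by
      ext l
      simp only [mem_filter]
      constructor
      · rintro ⟨h1, h2⟩
        exact ⟨(mem_filter.1 h1).1, h1, h2⟩
      · rintro ⟨_, h1, h2⟩
        exact ⟨h1, h2⟩
    rw [this, sum_filter]
    refine sum_congr rfl fun l _ => ?_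
    by_cases hl : l ∈ GT M L0 L ∧ va l y
    · rw [if_pos hl, mul_sum, sum_filter]
      refine sum_congr rfl fun l' _ => ?_
      by_cases hl' : va l' (en l y) ∧ Cell Θ (l ++ l')
      · rw [if_pos hl', if_pos ⟨hl, hl'⟩]
      · rw [if_neg hl', if_neg (fun h => hl' h.2)]
    · rw [if_neg hl]
      symm
      refine sum_eq_zero fun l' _ => ?_
      rw [if_neg (fun h => hl h.1)]
  rw [e2]
  refine sum_le_sum fun l hl => sum_le_sum fun l' hl' => ?_
  have hlen : l.length = L := (mem_words.1 hl).1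
  by_cases h : l ++ l' ∈ GT M L0 (L + k) ∧ va (l ++ l') y ∧ Cell Θ (l ++ l')
  · rw [if_pos h, if_pos ⟨⟨I6_take h.1 hlen (by omega), ((va_append _ _ _).1 h.2.1).1⟩,
      ((va_append _ _ _).1 h.2.1).2, h.2.2⟩, ww_append]
  · rw [if_neg h]
    split_ifs
    · exact mul_nonneg (ww_pos _).le (ww_pos _).le
    · exact le_rfl

theorem I6_Ls {L0 : ℕ} (hL0 : 100 ≤ L0) (j : ℕ) : L0 + j ≤ Ls 100 L0 j := by
  induction j with
  | zero => exact le_rfl
  | succ j ih =>
    have e : Ls 100 L0 (j + 1) = Ls 100 L0 j + Ls 100 L0 j / 100 := rfl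
    have : 1 ≤ Ls 100 L0 j / 100 := by
      rw [Nat.le_div_iff_mul_le (by norm_num)]
      omega
    omega

/-- the stage just below a length -/
theorem I6_stage {L0 K1 : ℕ} (hL0 : 100 ≤ L0) (hK : 4 * L0 < K1) :
    ∃ j, Ls 100 L0 j + Ls 100 L0 j / 100 ≤ K1 ∧
      K1 < (Ls 100 L0 j + Ls 100 L0 j / 100) + (Ls 100 L0 j + Ls 100 L0 j / 100) / 100 := by
  classical
  have hex : ∃ j, K1 < Ls 100 L0 j := ⟨K1, by have := I6_Ls hL0 K1; omega⟩
  have h0 : Nat.find hex ≠ 0 := by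
    intro h
    have := Nat.find_spec hex
    rw [h] at this
    change K1 < L0 at this
    omega
  have h1 : Nat.find hex ≠ 1 := by
    intro h
    have := Nat.find_spec hex
    rw [h] at this
    change K1 < L0 + L0 / 100 at this
    omega
  refine ⟨Nat.find hex - 2, ?_, ?_⟩
  · have h2 := Nat.find_min hex (m := Nat.find hex - 2 + 1) (by omega)
    exact not_lt.1 h2
  · have h2 := Nat.find_spec hex
    have e : Nat.find hex = Nat.find hex - 2 + 1 + 1 := by omega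
    rw [e] at h2
    exact h2

open Classical in
theorem mass_bound : ∃ C : ℝ, 0 < C ∧ ∃ L1 : ℕ, 1 ≤ L1 ∧ ∀ L0 M Km y : ℕ, L1 ≤ L0 → 2 * Km ≤ M → ∀ Θ : ℝ, 0 < Θ →
    ∑ K ∈ range (Km + 1), ∑ l ∈ (GT M L0 K).filter (fun l => va l y ∧ Cell Θ l), ww l ≤ C * (L0 : ℝ) ^ 2 := by
  obtain ⟨L2, hL2, hmul⟩ := up_multi
  obtain ⟨Cv, hCv, L3, hL3, hlast⟩ := last_up
  refine ⟨21 + 17 * Cv, by linarith, max (max L2 L3) 300, by omega, ?_⟩
  intro L0 M Km y hL0 hM Θ hΘ
  have hL02 : L2 ≤ L0 := le_trans (by omega) hL0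
  have hL03 : L3 ≤ L0 := le_trans (by omega) hL0
  have hL0' : 300 ≤ L0 := le_trans (by omega) hL0
  have hr : (1 : ℝ) ≤ L0 := by
    have : 1 ≤ L0 := by omega
    exact_mod_cast this
  set F : ℕ → ℝ := fun K => ∑ l ∈ (GT M L0 K).filter (fun l => va l y ∧ Cell Θ l), ww l with hF
  have hF0 : ∀ K, 0 ≤ F K := fun K => sum_nonneg fun l _ => (ww_pos l).le
  have hshort : ∑ K ∈ range (4 * L0 + 1), F K ≤ 20 * (L0 : ℝ) ^ 2 := by
    refine (short_mass (M := M) (L0 := L0) (by omega) y Θ hΘ).trans ?_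
    nlinarith
  have hsplit : ∑ K ∈ range (Km + 1), F K ≤ ∑ K ∈ range (4 * L0 + 1), F K +
      ∑ K ∈ (range (Km + 1)).filter (fun K => 4 * L0 < K), F K := by
    rw [← sum_filter_add_sum_filter_not (range (Km + 1)) (fun K => 4 * L0 < K) F, add_comm]
    refine add_le_add (sum_le_sum_of_subset_of_nonneg ?_ fun K _ _ => hF0 K) le_rfl
    intro K hK
    rw [mem_filter] at hK
    rw [mem_range]
    omega
  suffices hlong : ∑ K ∈ (range (Km + 1)).filter (fun K => 4 * L0 < K), F K ≤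
      (1 + 17 * Cv) * (L0 : ℝ) ^ 2 by
    have : ∑ K ∈ range (Km + 1), F K ≤ (21 + 17 * Cv) * (L0 : ℝ) ^ 2 := by linarith
    exact this
  by_cases hex : ∃ K1, K1 ≤ Km ∧ 4 * L0 < K1 ∧ ∃ l1 ∈ GT M L0 K1, va l1 y ∧ Cell Θ l1
  · have hs := Nat.find_spec hex
    have hm := fun m => Nat.find_min hex (m := m)
    set K1 := Nat.find hex with hK1
    obtain ⟨hK1m, hK14, l1, hl1, hv1, hc1⟩ := hs
    obtain ⟨j, hj1, hj2⟩ := I6_stage (by omega : 100 ≤ L0) hK14
    set L := Ls 100 L0 j with hL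
    have hLL0 : L0 ≤ L := Ls_ge 100 L0 j
    have hsub : ∀ K ∈ (range (Km + 1)).filter (fun K => 4 * L0 < K), F K ≠ 0 →
        L + L / 100 ≤ K ∧ K ≤ L + L / 100 + 10 * (L / 100) := by
      intro K hK hne
      rw [mem_filter, mem_range] at hK
      obtain ⟨l, hl, -⟩ := exists_ne_zero_of_sum_ne_zero hne
      rw [mem_filter] at hl
      have hge : K1 ≤ K := by
        by_contra hlt
        exact hm K (not_le.1 hlt) ⟨by omega, hK.2, l, hl.1, hl.2.1, hl.2.2⟩
      have hw := window (by omega : 100 ≤ L0) hΘ hl1 hl.1 (by omega) (by omega) hc1 hl.2.2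
      refine ⟨by omega, ?_⟩
      omega
    have hbound : ∑ K ∈ (range (Km + 1)).filter (fun K => 4 * L0 < K), F K ≤
        ∑ m ∈ range (10 * (L / 100) + 1), F (L + (L / 100 + m)) := by
      have h1 : ∑ m ∈ range (10 * (L / 100) + 1), F (L + (L / 100 + m)) =
          ∑ K ∈ (range (10 * (L / 100) + 1)).image (fun m => L + (L / 100 + m)), F K := by
        rw [sum_image]
        intro a _ b _ hab
        have : L + (L / 100 + a) = L + (L / 100 + b) := hab
        omega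
      rw [h1, ← sum_filter_ne_zero]
      refine sum_le_sum_of_subset_of_nonneg ?_ fun K _ _ => hF0 K
      intro K hK
      rw [mem_filter] at hK
      have := hsub K hK.1 hK.2
      rw [mem_image]
      exact ⟨K - (L + L / 100), by rw [mem_range]; omega, by omega⟩
    refine hbound.trans ?_
    have h2 : ∑ m ∈ range (10 * (L / 100) + 1), F (L + (L / 100 + m)) ≤
        ∑ l ∈ (GT M L0 L).filter (fun l => va l y), ww l * ∑ m ∈ range (10 * (L / 100) + 1),
          ∑ l' ∈ (words M (L / 100 + m)).filter (fun l' => va l' (en l y) ∧ Cell Θ (l ++ l')), ww l' := by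
      simp_rw [mul_sum]
      rw [sum_comm]
      refine sum_le_sum fun m _ => ?_
      simp_rw [← mul_sum]
      exact I6_split y Θ
    refine h2.trans ((hlast L0 L M y hL03 hLL0 (by omega) Θ hΘ).trans ?_)
    have h3 := hmul L0 M y j hL02 (by omega)
    rw [← hL] at h3
    have h4 : Cv * sm (GT M L0 L) (FF M (L / 100)) y ≤ Cv * ((3 * (L0 : ℝ) + 1) * (L0 + 3) + 1) :=
      mul_le_mul_of_nonneg_left h3 (by linarith)
    have h5 : (3 * (L0 : ℝ) + 1) * (L0 + 3) + 1 ≤ 17 * (L0 : ℝ) ^ 2 := by nlinarith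
    have h6 : Cv * ((3 * (L0 : ℝ) + 1) * (L0 + 3) + 1) ≤ Cv * (17 * (L0 : ℝ) ^ 2) :=
      mul_le_mul_of_nonneg_left h5 (by linarith)
    nlinarith
  · have hz : ∑ K ∈ (range (Km + 1)).filter (fun K => 4 * L0 < K), F K = 0 := by
      refine sum_eq_zero fun K hK => ?_
      rw [mem_filter, mem_range] at hK
      refine sum_eq_zero fun l hl => ?_
      exfalso
      rw [mem_filter] at hl
      exact hex ⟨K, by omega, hK.2, l, hl.1, hl.2.1, hl.2.2⟩
    rw [hz]
    positivity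

end H62z
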