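import Pool.Agent.Lib.H62z.SkI6

set_option autoImplicit false

/-! Chunk J (number of starting points through a given first passage point). Rch_word gives (b, K, l) and n = 2^b en l m. For fixed l at most one b
(level of n); weight: with n' = en l m in (2^(e0-1-b), 2^(e0-b)]: 2^|l|/3^K in (n'/m, 2n'/m], so l is in the cell Θ or 2Θ with Θ = 2^(e0-1-b)/m
(check: 2^|l|/3^K > 2^(e0-1-b)/m and ≤ 4 * 2^(e0-1-b)/m), and 1 ≤ 4 Θ ww l. Sum over b: geometric. M = 22 e0, Km = 11 e0. -/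

open Finset
namespace H62z
open H62w H78P

theorem J_lev {N e0 n e m j : ℕ} (h : Rch N e0 n e m j) : Lev e0 n := by
  cases h with
  | base _ _ h => exact h
  | step _ _ _ _ _ _ h => exact h

/-- the weight of a word in one of the two cells -/
theorem J_one_le {Θ : ℝ} (hΘ : 0 < Θ) {l : List ℕ} (h : Cell Θ l ∨ Cell (2 * Θ) l) : 1 ≤ 4 * Θ * ww l := by
  unfold ww
  have h3 : (0:ℝ) < 3 ^ l.length := by positivity
  have h2 : (0:ℝ) < 2 ^ l.sum := by positivity
  rw [mul_div_assoc', le_div_iff₀ h2, one_mul]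
  rcases h with h | h
  · have := h.2
    nlinarith [mul_pos hΘ h3]
  · have := h.2
    linarith

open Classical in
theorem J_card {C : ℝ} {M e Km y : ℕ} {Θ : ℝ} (hΘ : 0 < Θ)
    (h1 : ∑ K ∈ range (Km + 1), ∑ l ∈ (GT M e K).filter (fun l => va l y ∧ Cell Θ l), ww l ≤ C)
    (h2 : ∑ K ∈ range (Km + 1), ∑ l ∈ (GT M e K).filter (fun l => va l y ∧ Cell (2 * Θ) l), ww l ≤ C) :
    ((((range (Km + 1)).biUnion (fun K => (GT M e K).filter
      (fun l => va l y ∧ (Cell Θ l ∨ Cell (2 * Θ) l)))).card : ℕ) : ℝ) ≤ 8 * Θ * C := by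
  have e1 : ((((range (Km + 1)).biUnion (fun K => (GT M e K).filter
      (fun l => va l y ∧ (Cell Θ l ∨ Cell (2 * Θ) l)))).card : ℕ) : ℝ) ≤
      ∑ K ∈ range (Km + 1), (((GT M e K).filter
      (fun l => va l y ∧ (Cell Θ l ∨ Cell (2 * Θ) l))).card : ℝ) := by
    exact_mod_cast card_biUnion_le
  have e2 : ∀ K ∈ range (Km + 1), (((GT M e K).filter
      (fun l => va l y ∧ (Cell Θ l ∨ Cell (2 * Θ) l))).card : ℝ) ≤
      4 * Θ * (∑ l ∈ (GT M e K).filter (fun l => va l y ∧ Cell Θ l), ww l +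
        ∑ l ∈ (GT M e K).filter (fun l => va l y ∧ Cell (2 * Θ) l), ww l) := by
    intro K _
    have e3 : (((GT M e K).filter (fun l => va l y ∧ (Cell Θ l ∨ Cell (2 * Θ) l))).card : ℝ) ≤
        ∑ l ∈ (GT M e K).filter (fun l => va l y ∧ (Cell Θ l ∨ Cell (2 * Θ) l)), 4 * Θ * ww l := by
      rw [card_eq_sum_ones]
      push_cast
      exact sum_le_sum fun l hl => J_one_le hΘ (mem_filter.mp hl).2.2
    refine e3.trans ?_
    rw [← mul_sum]
    refine mul_le_mul_of_nonneg_left ?_ (by positivity)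
    have e4 : (GT M e K).filter (fun l => va l y ∧ (Cell Θ l ∨ Cell (2 * Θ) l)) =
        (GT M e K).filter (fun l => va l y ∧ Cell Θ l) ∪
          (GT M e K).filter (fun l => va l y ∧ Cell (2 * Θ) l) := by
      ext l
      simp only [mem_filter, mem_union]
      tauto
    rw [e4, ← sum_union_inter]
    have : 0 ≤ ∑ l ∈ (GT M e K).filter (fun l => va l y ∧ Cell Θ l) ∩
          (GT M e K).filter (fun l => va l y ∧ Cell (2 * Θ) l), ww l :=
      sum_nonneg fun l _ => B_ww_nonneg l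
    linarith
  refine e1.trans ((sum_le_sum e2).trans ?_)
  rw [← mul_sum, sum_add_distrib]
  nlinarith

open Classical in
theorem root_bound : ∃ C : ℝ, 0 < C ∧ ∃ e1 : ℕ, 2000 ≤ e1 ∧ ∀ N e0 e m : ℕ, 40000 ≤ N → e1 ≤ e → e ≤ e0 → Lev e m →
    (((range (2 ^ e0 + 1)).filter (fun n => ∃ j, Rch N e0 n e m j)).card : ℝ) ≤ C * (e : ℝ) ^ 2 * 2 ^ e0 / 2 ^ e := by
  obtain ⟨C, hC, L1, hL1, hmass⟩ := mass_bound
  refine ⟨32 * C, by positivity, max L1 2000, le_max_right _ _, ?_⟩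
  intro N e0 e m hN he he0 hm
  have heL : L1 ≤ e := (le_max_left _ _).trans he
  have he2 : 2000 ≤ e := (le_max_right _ _).trans he
  have hmpos : 0 < m := by
    rcases Nat.eq_zero_or_pos m with h | h
    · exfalso
      have := hm.1
      rw [h] at this
      simp at this
    · exact h
  have hmR : (0:ℝ) < m := by exact_mod_cast hmpos
  -- the cells
  obtain ⟨Th, hTh⟩ : ∃ Th : ℕ → ℝ, Th = fun b => (2:ℝ) ^ e0 / 2 ^ b / (2 * (m:ℝ)) := ⟨_, rfl⟩
  have hThp : ∀ b, 0 < Th b := by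
    intro b; rw [hTh]; positivity
  obtain ⟨W, hW⟩ : ∃ W : ℕ → Finset (List ℕ), W = fun b => (range (11 * e0 + 1)).biUnion
    (fun K => (GT (22 * e0) e K).filter (fun l => va l m ∧ (Cell (Th b) l ∨ Cell (2 * Th b) l))) := ⟨_, rfl⟩
  have hWcard : ∀ b, ((W b).card : ℝ) ≤ 8 * Th b * (C * (e:ℝ) ^ 2) := by
    intro b
    rw [hW]
    exact J_card (hThp b) (hmass e (22 * e0) (11 * e0) m heL (by omega) (Th b) (hThp b))
      (hmass e (22 * e0) (11 * e0) m heL (by omega) (2 * Th b) (by have := hThp b; linarith))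
  have hsub : (range (2 ^ e0 + 1)).filter (fun n => ∃ j, Rch N e0 n e m j) ⊆
      (range (e0 + 1)).biUnion (fun b => (W b).image (fun l => 2 ^ b * en l m)) := by
    intro n hn
    rw [mem_filter] at hn
    obtain ⟨_, j, hj⟩ := hn
    have hlev := J_lev hj
    obtain ⟨b, K, l, _, hK, hl, hva, hnb, hw1, hw2⟩ := Rch_word hN he2 hj (show 11 * e0 ≤ 22 * e0 by omega)
    have hlen : l.length = K := by
      unfold GT at hl
      rw [mem_filter, mem_words] at hl
      exact hl.1.1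
    have hnpos : 0 < n := by
      rcases Nat.eq_zero_or_pos n with h | h
      · exfalso
        have := hlev.1
        rw [h] at this
        simp at this
      · exact h
    have hbpow : 2 ^ b ≤ 2 ^ e0 := by
      have h1 : 2 ^ b ∣ n := ⟨_, hnb⟩
      exact (Nat.le_of_dvd hnpos h1).trans hlev.2
    have hb : b ≤ e0 := (Nat.pow_le_pow_iff_right (by norm_num)).mp hbpow
    rw [mem_biUnion]
    refine ⟨b, mem_range.mpr (by omega), ?_⟩
    rw [mem_image]
    refine ⟨l, ?_, hnb.symm⟩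
    rw [hW]
    simp only [mem_biUnion]
    refine ⟨K, mem_range.mpr (by omega), ?_⟩
    rw [mem_filter]
    refine ⟨hl, hva, ?_⟩
    -- real inequalities
    have hlev1 : (2:ℝ) ^ e0 < 2 * (2 ^ b * (en l m : ℝ)) := by
      have := hlev.1
      rw [hnb] at this
      exact_mod_cast this
    have hlev2 : 2 ^ b * (en l m : ℝ) ≤ 2 ^ e0 := by
      have := hlev.2
      rw [hnb] at this
      exact_mod_cast this
    have hw1' : (3:ℝ) ^ K * en l m ≤ 2 ^ l.sum * m := by exact_mod_cast hw1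
    have hw2' : (2:ℝ) ^ l.sum * m ≤ 2 * (3 ^ K * en l m) := by exact_mod_cast hw2
    have h3 : (0:ℝ) < 3 ^ K := by positivity
    have hb2 : (0:ℝ) < 2 ^ b := by positivity
    have lower : Th b * 3 ^ K < 2 ^ l.sum := by
      rw [hTh]
      simp only
      rw [div_div, div_mul_eq_mul_div, div_lt_iff₀ (by positivity)]
      calc (2:ℝ) ^ e0 * 3 ^ K < 2 * (2 ^ b * (en l m : ℝ)) * 3 ^ K := by
            exact mul_lt_mul_of_pos_right hlev1 h3
        _ = 2 * 2 ^ b * (3 ^ K * en l m) := by ring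
        _ ≤ 2 * 2 ^ b * (2 ^ l.sum * m) := mul_le_mul_of_nonneg_left hw1' (by positivity)
        _ = 2 ^ l.sum * (2 ^ b * (2 * m)) := by ring
    have upper : (2:ℝ) ^ l.sum ≤ 4 * Th b * 3 ^ K := by
      rw [hTh]
      simp only
      have : 4 * ((2:ℝ) ^ e0 / 2 ^ b / (2 * m)) * 3 ^ K = (2 * 2 ^ e0 * 3 ^ K) / (2 ^ b * m) := by
        field_simp
        ring
      rw [this, le_div_iff₀ (by positivity)]
      calc (2:ℝ) ^ l.sum * (2 ^ b * m) = 2 ^ b * (2 ^ l.sum * m) := by ring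
        _ ≤ 2 ^ b * (2 * (3 ^ K * en l m)) := mul_le_mul_of_nonneg_left hw2' (by positivity)
        _ = 2 * (2 ^ b * en l m) * 3 ^ K := by ring
        _ ≤ 2 * 2 ^ e0 * 3 ^ K := by gcongr
    unfold Cell
    rw [hlen]
    by_cases hc : (2:ℝ) ^ l.sum ≤ 2 * Th b * 3 ^ K
    · exact Or.inl ⟨lower, hc⟩
    · push Not at hc
      refine Or.inr ⟨hc, ?_⟩
      linarith
  have hcard : (((range (2 ^ e0 + 1)).filter (fun n => ∃ j, Rch N e0 n e m j)).card : ℝ) ≤
      ∑ b ∈ range (e0 + 1), ((W b).card : ℝ) := by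
    have h1 := card_le_card hsub
    have h2 : ((range (e0 + 1)).biUnion (fun b => (W b).image (fun l => 2 ^ b * en l m))).card ≤
        ∑ b ∈ range (e0 + 1), (W b).card :=
      card_biUnion_le.trans (sum_le_sum fun b _ => card_image_le)
    exact_mod_cast h1.trans h2
  refine hcard.trans ((sum_le_sum fun b _ => hWcard b).trans ?_)
  have hgeom : ∑ b ∈ range (e0 + 1), (1 / 2 : ℝ) ^ b ≤ 2 := by
    rw [geom_sum_eq (by norm_num)]
    have : (0:ℝ) ≤ (1/2) ^ (e0 + 1) := by positivity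
    have h4 : ((1/2 : ℝ) ^ (e0 + 1) - 1) / (1/2 - 1) = 2 - 2 * (1/2) ^ (e0 + 1) := by ring
    rw [h4]; linarith
  have hsum : ∑ b ∈ range (e0 + 1), 8 * Th b * (C * (e:ℝ) ^ 2) =
      (4 * 2 ^ e0 / m * (C * (e:ℝ) ^ 2)) * ∑ b ∈ range (e0 + 1), (1 / 2 : ℝ) ^ b := by
    rw [mul_sum]
    refine sum_congr rfl fun b _ => ?_
    rw [hTh]
    simp only
    rw [div_pow, one_pow]
    field_simp
    ring
  rw [hsum]
  have hm2 : (2:ℝ) ^ e < 2 * m := by
    have := hm.1
    exact_mod_cast this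
  have hq : 4 * (2:ℝ) ^ e0 / m ≤ 8 * 2 ^ e0 / 2 ^ e := by
    rw [div_le_div_iff₀ hmR (by positivity)]
    nlinarith [show (0:ℝ) < 2 ^ e0 by positivity]
  calc (4 * 2 ^ e0 / m * (C * (e:ℝ) ^ 2)) * ∑ b ∈ range (e0 + 1), (1 / 2 : ℝ) ^ b
      ≤ (8 * 2 ^ e0 / 2 ^ e * (C * (e:ℝ) ^ 2)) * 2 := by gcongr
    _ = 16 * C * (e:ℝ) ^ 2 * 2 ^ e0 / 2 ^ e := by ring
    _ ≤ 32 * C * (e:ℝ) ^ 2 * 2 ^ e0 / 2 ^ e := by gcongr; norm_num

end H62z
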