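import Pool.Agent.Lib.H62z.SkJ
import Pool.Agent.Lib.H62z.SkB
import Pool.Agent.Lib.H62z.SkE

set_option autoImplicit false

/-! Chunk K (failures). Union over f < e ≤ e0 and m bad of level e: bad_count and root_bound: sum of C e^2 exp(-c e) over e > f is ≤ C' exp(-c f/2).
For f < e1: take C large (the set has at most 2^e0 + 1 elements). -/

open Finset
namespace H62z
open H62w H78P

open Classical in
theorem K_union (N e0 f : ℕ) :
    ((range (2 ^ e0 + 1)).filter (fun n => ∃ e m j, f < e ∧ Rch N e0 n e m j ∧ ¬ Gd N e m)) ⊆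
      (Ioc f e0).biUnion (fun e => ((range (2 ^ e + 1)).filter (fun m => Lev e m ∧ ¬ Gd N e m)).biUnion
        (fun m => (range (2 ^ e0 + 1)).filter (fun n => ∃ j, Rch N e0 n e m j))) := by
  intro n hn
  rw [mem_filter] at hn
  obtain ⟨hn1, e, m, j, hfe, hR, hG⟩ := hn
  obtain ⟨_, h2, _, h4⟩ := Rch_end hR
  rw [mem_biUnion]
  refine ⟨e, mem_Ioc.2 ⟨hfe, h4⟩, ?_⟩
  rw [mem_biUnion]
  refine ⟨m, ?_, ?_⟩
  · rw [mem_filter, mem_range]
    refine ⟨?_, h2, hG⟩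
    have := h2.2
    omega
  · rw [mem_filter]
    exact ⟨hn1, j, hR⟩

open Classical in
theorem fail_count (N : ℕ) (hN : 40000 ≤ N) : ∃ c C : ℝ, 0 < c ∧ 0 < C ∧ ∀ e0 f : ℕ,
    (((range (2 ^ e0 + 1)).filter (fun n => ∃ e m j, f < e ∧ Rch N e0 n e m j ∧ ¬ Gd N e m)).card : ℝ) ≤
      C * 2 ^ e0 * Real.exp (-(c * f)) := by
  obtain ⟨c1, C1, hc1, hC1, hbad⟩ := bad_count N (by omega)
  obtain ⟨C2, hC2, e1, he1, hroot⟩ := root_bound
  have hsum : Summable (fun e : ℕ => (e : ℝ) ^ 2 * Real.exp (-(c1 / 2) * e)) :=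
    Real.summable_pow_mul_exp_neg_nat_mul 2 (by positivity)
  set K : ℝ := ∑' e : ℕ, (e : ℝ) ^ 2 * Real.exp (-(c1 / 2) * e) with hK
  have hK0 : 0 ≤ K := tsum_nonneg fun e => by positivity
  refine ⟨c1 / 2, C1 * C2 * K + 2 * Real.exp (c1 / 2 * e1), by positivity, by positivity, ?_⟩
  intro e0 f
  by_cases hf : f < e1
  · -- trivial bound
    have h1 : (((range (2 ^ e0 + 1)).filter (fun n => ∃ e m j, f < e ∧ Rch N e0 n e m j ∧ ¬ Gd N e m)).card : ℝ) ≤
        2 * 2 ^ e0 := by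
      have h2 : ((range (2 ^ e0 + 1)).filter (fun n => ∃ e m j, f < e ∧ Rch N e0 n e m j ∧ ¬ Gd N e m)).card ≤
          2 ^ e0 + 1 := (card_filter_le _ _).trans (by rw [card_range])
      have h3 : 1 ≤ 2 ^ e0 := Nat.one_le_two_pow
      have h4 : ((range (2 ^ e0 + 1)).filter (fun n => ∃ e m j, f < e ∧ Rch N e0 n e m j ∧ ¬ Gd N e m)).card ≤
          2 * 2 ^ e0 := by omega
      exact_mod_cast h4
    refine h1.trans ?_
    have h5 : 1 ≤ Real.exp (c1 / 2 * e1) * Real.exp (-(c1 / 2 * f)) := by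
      rw [← Real.exp_add]
      refine Real.one_le_exp ?_
      have : (f : ℝ) ≤ e1 := by exact_mod_cast hf.le
      nlinarith
    have h6 : 0 ≤ C1 * C2 * K * 2 ^ e0 * Real.exp (-(c1 / 2 * f)) := by positivity
    have h7 : (2 : ℝ) * 2 ^ e0 * 1 ≤ 2 * 2 ^ e0 * (Real.exp (c1 / 2 * e1) * Real.exp (-(c1 / 2 * f))) :=
      mul_le_mul_of_nonneg_left h5 (by positivity)
    nlinarith
  · push Not at hf
    have h1 := card_le_card (K_union N e0 f)
    have h2 : (((range (2 ^ e0 + 1)).filter (fun n => ∃ e m j, f < e ∧ Rch N e0 n e m j ∧ ¬ Gd N e m)).card : ℝ) ≤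
        ∑ e ∈ Ioc f e0, ∑ m ∈ (range (2 ^ e + 1)).filter (fun m => Lev e m ∧ ¬ Gd N e m),
          (((range (2 ^ e0 + 1)).filter (fun n => ∃ j, Rch N e0 n e m j)).card : ℝ) := by
      have h3 := h1.trans (card_biUnion_le.trans (sum_le_sum fun e _ => card_biUnion_le))
      exact_mod_cast h3
    refine h2.trans ?_
    have h4 : ∀ e ∈ Ioc f e0, ∑ m ∈ (range (2 ^ e + 1)).filter (fun m => Lev e m ∧ ¬ Gd N e m),
          (((range (2 ^ e0 + 1)).filter (fun n => ∃ j, Rch N e0 n e m j)).card : ℝ) ≤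
        (C1 * C2 * 2 ^ e0 * Real.exp (-(c1 / 2 * f))) * ((e : ℝ) ^ 2 * Real.exp (-(c1 / 2) * e)) := by
      intro e he
      rw [mem_Ioc] at he
      have h5 : ∀ m ∈ (range (2 ^ e + 1)).filter (fun m => Lev e m ∧ ¬ Gd N e m),
          (((range (2 ^ e0 + 1)).filter (fun n => ∃ j, Rch N e0 n e m j)).card : ℝ) ≤
            C2 * (e : ℝ) ^ 2 * 2 ^ e0 / 2 ^ e := by
        intro m hm
        rw [mem_filter] at hm
        have h := hroot N e0 e m hN (by omega) he.2 hm.2.1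
        exact h
      refine (sum_le_card_nsmul _ _ _ h5).trans ?_
      rw [nsmul_eq_mul]
      have h6 := hbad e
      have h7 : 0 ≤ C2 * (e : ℝ) ^ 2 * 2 ^ e0 / 2 ^ e := by positivity
      refine (mul_le_mul_of_nonneg_right h6 h7).trans ?_
      have h8 : C1 * 2 ^ e * Real.exp (-(c1 * e)) * (C2 * (e : ℝ) ^ 2 * 2 ^ e0 / 2 ^ e) =
          C1 * C2 * 2 ^ e0 * (e : ℝ) ^ 2 * Real.exp (-(c1 * e)) := by
        field_simp
      rw [h8]
      have h9 : Real.exp (-(c1 * e)) ≤ Real.exp (-(c1 / 2 * f)) * Real.exp (-(c1 / 2) * e) := by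
        rw [← Real.exp_add]
        refine Real.exp_le_exp.mpr ?_
        have : (f : ℝ) ≤ e := by exact_mod_cast he.1.le
        nlinarith
      calc C1 * C2 * 2 ^ e0 * (e : ℝ) ^ 2 * Real.exp (-(c1 * e)) ≤
            C1 * C2 * 2 ^ e0 * (e : ℝ) ^ 2 * (Real.exp (-(c1 / 2 * f)) * Real.exp (-(c1 / 2) * e)) :=
            mul_le_mul_of_nonneg_left h9 (by positivity)
        _ = _ := by ring
    refine (sum_le_sum h4).trans ?_
    rw [← mul_sum]
    have h10 : ∑ e ∈ Ioc f e0, ((e : ℝ) ^ 2 * Real.exp (-(c1 / 2) * e)) ≤ K :=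
      hsum.sum_le_tsum _ (fun e _ => by positivity)
    calc (C1 * C2 * 2 ^ e0 * Real.exp (-(c1 / 2 * f))) * ∑ e ∈ Ioc f e0, ((e : ℝ) ^ 2 * Real.exp (-(c1 / 2) * e))
        ≤ (C1 * C2 * 2 ^ e0 * Real.exp (-(c1 / 2 * f))) * K := mul_le_mul_of_nonneg_left h10 (by positivity)
      _ = C1 * C2 * K * 2 ^ e0 * Real.exp (-(c1 / 2 * f)) := by ring
      _ ≤ _ := by
        have : 0 ≤ 2 * Real.exp (c1 / 2 * e1) * 2 ^ e0 * Real.exp (-(c1 / 2 * f)) := by positivity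
        nlinarith

end H62z
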