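import Pool.Agent.Lib.H62z.SkF

set_option autoImplicit false

/-! Chunk L (time of a successful path). Rch_dev at u = 0, Rch_time, Rch_size. |j (log 2 - log 3/2) - log(n/m)| ≤ r log 2 + (12 j + e) log 3/(2N),
r ≤ (e0 - e)/(e/48) ≤ 100 (e0/e), j ≤ 11 e0, e0 ≤ log2 n + 1. Constant 2/log(4/3) = 1/(log 2 - log 3/2). -/

open Finset
namespace H62z
open H62w H78P

theorem L_pos {e n : ℕ} (h : Lev e n) : 0 < n := by
  rcases Nat.eq_zero_or_pos n with h0 | h0
  · have h1 := h.1
    rw [h0] at h1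
    exact absurd h1 (Nat.not_lt_zero _)
  · exact h0

theorem L_log43 : 1 / 4 ≤ Real.log (4 / 3) := by
  have h := Real.one_sub_inv_le_log_of_pos (x := 4 / 3) (by norm_num)
  norm_num at h
  linarith

theorem L_log43' : Real.log (4 / 3) = 2 * Real.log 2 - Real.log 3 := by
  rw [Real.log_div (by norm_num) (by norm_num)]
  have : Real.log 4 = 2 * Real.log 2 := by
    rw [show (4 : ℝ) = 2 ^ 2 by norm_num, Real.log_pow]
    norm_num
  rw [this]

theorem L_core {N e0 n e m j k : ℕ} (hN : 1 ≤ N) (hk : 1 ≤ k) (hR : Rch N e0 n e m j) (he : 48 * k ≤ e) :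
    |(j : ℝ) - 2 / Real.log (4 / 3) * Real.log ((n : ℝ) / m)| ≤ 8 * e0 * (1 / k + 133 / N) := by
  obtain ⟨a1, a2, a3, a4⟩ := Rch_end hR
  obtain ⟨t1, t2⟩ := Rch_time hR
  obtain ⟨s1, r, s2, s3⟩ := Rch_size hR
  obtain ⟨d1, d2⟩ := Rch_dev hR 0 (Nat.zero_le _)
  rw [Nat.sub_zero, Function.iterate_zero, id] at d1 d2
  have hn0 : 0 < n := L_pos a3
  have hm0 : 0 < m := L_pos a2
  have hn : (0 : ℝ) < n := by exact_mod_cast hn0
  have hm : (0 : ℝ) < m := by exact_mod_cast hm0
  have hNr : (0 : ℝ) < N := by exact_mod_cast hN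
  have hkr : (0 : ℝ) < k := by exact_mod_cast hk
  have hl2 : Real.log 2 ≤ 1 := by
    have := Real.log_le_sub_one_of_pos (x := 2) (by norm_num)
    linarith
  have hl2p : 0 ≤ Real.log 2 := Real.log_nonneg (by norm_num)
  have hl3 : Real.log 3 ≤ 2 := by
    have := Real.log_le_sub_one_of_pos (x := 3) (by norm_num)
    linarith
  have hl3p : 0 ≤ Real.log 3 := Real.log_nonneg (by norm_num)
  -- logs of the size inequalities
  have L1 : (od n j : ℝ) * Real.log 3 + Real.log n ≤ j * Real.log 2 + Real.log m := by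
    have h1 : ((3 : ℝ) ^ od n j * n) ≤ 2 ^ j * m := by exact_mod_cast s1
    have h2 := Real.log_le_log (by positivity) h1
    rw [Real.log_mul (by positivity) hn.ne', Real.log_mul (by positivity) hm.ne', Real.log_pow,
      Real.log_pow] at h2
    exact h2
  have L2 : (j : ℝ) * Real.log 2 + Real.log m ≤ r * Real.log 2 + od n j * Real.log 3 + Real.log n := by
    have h1 : ((2 : ℝ) ^ j * m) ≤ 2 ^ r * 3 ^ od n j * n := by exact_mod_cast s3
    have h2 := Real.log_le_log (by positivity) h1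
    rw [Real.log_mul (by positivity) hm.ne', Real.log_mul (by positivity) hn.ne',
      Real.log_mul (by positivity) (by positivity), Real.log_pow, Real.log_pow, Real.log_pow] at h2
    exact h2
  -- number of stages
  have hr : (r : ℝ) ≤ e0 / k := by
    rw [le_div_iff₀ hkr]
    have h1 : k ≤ e / 48 := by omega
    have h2 : r * k ≤ e0 := (Nat.mul_le_mul_left r h1).trans (s2.trans (Nat.sub_le _ _))
    exact_mod_cast h2
  -- deviation
  have hj11 : j ≤ 11 * e0 := t2.trans (Nat.mul_le_mul_left _ (Nat.sub_le _ _))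
  have D : |2 * (od n j : ℝ) - j| ≤ 133 * e0 / N := by
    have g0 : |2 * (od n j : ℝ) - j| * N = |(2 * (od n j : ℝ) - j) * N| := by
      rw [abs_mul, abs_of_pos hNr]
    rw [le_div_iff₀ hNr, g0, abs_le]
    have g1 : (N : ℝ) * (2 * od n j) ≤ N * j + 12 * j + e := by exact_mod_cast d1
    have g2 : (N : ℝ) * j ≤ N * (2 * od n j) + 12 * j + e := by exact_mod_cast d2
    have g3 : (j : ℝ) ≤ 11 * e0 := by exact_mod_cast hj11
    have g4 : (e : ℝ) ≤ e0 := by exact_mod_cast a4
    constructor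
    · nlinarith
    · nlinarith
  have hlog : Real.log ((n : ℝ) / m) = Real.log n - Real.log m := Real.log_div hn.ne' hm.ne'
  have h43 := L_log43
  have h43p : 0 < Real.log (4 / 3) := by linarith
  have key : |(j : ℝ) * Real.log (4 / 3) - 2 * Real.log ((n : ℝ) / m)| ≤ 2 * e0 * (1 / k + 133 / N) := by
    have e1 : (j : ℝ) * Real.log (4 / 3) - 2 * Real.log ((n : ℝ) / m) =
        2 * (j * Real.log 2 + Real.log m - od n j * Real.log 3 - Real.log n) +
          (2 * (od n j : ℝ) - j) * Real.log 3 := by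
      rw [hlog, L_log43']
      ring
    rw [e1]
    have b1 : |2 * (j * Real.log 2 + Real.log m - od n j * Real.log 3 - Real.log n)| ≤ 2 * (e0 / k) := by
      have hr2 : (r : ℝ) * Real.log 2 ≤ e0 / k := by
        have hr0 : (0 : ℝ) ≤ r := Nat.cast_nonneg r
        nlinarith
      rw [abs_le]
      constructor
      · have : (0 : ℝ) ≤ e0 / k := by positivity
        linarith
      · linarith
    have b2 : |(2 * (od n j : ℝ) - j) * Real.log 3| ≤ 133 * e0 / N * 2 := by
      rw [abs_mul, abs_of_nonneg hl3p]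
      exact mul_le_mul D hl3 hl3p (by positivity)
    calc _ ≤ |2 * (j * Real.log 2 + Real.log m - od n j * Real.log 3 - Real.log n)| +
          |(2 * (od n j : ℝ) - j) * Real.log 3| := abs_add_le _ _
      _ ≤ 2 * (e0 / k) + 133 * e0 / N * 2 := add_le_add b1 b2
      _ = _ := by ring
  have e2 : (j : ℝ) - 2 / Real.log (4 / 3) * Real.log ((n : ℝ) / m) =
      ((j : ℝ) * Real.log (4 / 3) - 2 * Real.log ((n : ℝ) / m)) / Real.log (4 / 3) := by
    field_simp
  rw [e2, abs_div, abs_of_pos h43p, div_le_iff₀ h43p]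
  refine key.trans ?_
  have h0 : 0 ≤ (e0 : ℝ) * (1 / k + 133 / N) := by positivity
  nlinarith

theorem good_time (ε : ℝ) (hε : 0 < ε) : ∃ N1 f1 : ℕ, ∃ C : ℝ, 0 < C ∧ ∀ N e0 n e m j : ℕ, N1 ≤ N → Rch N e0 n e m j → (e = e0 ∨ f1 ≤ e) →
    |(j : ℝ) - 2 / Real.log (4 / 3) * Real.log ((n : ℝ) / m)| ≤ ε * Real.log n + C := by
  obtain ⟨k, hk⟩ := exists_nat_gt (32 / ε)
  obtain ⟨N0, hN0⟩ := exists_nat_gt (4256 / ε)
  refine ⟨N0 + 1, 48 * (k + 1), ε, hε, ?_⟩
  intro N e0 n e m j hN hR he
  obtain ⟨a1, a2, a3, a4⟩ := Rch_end hR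
  have hn0 : 0 < n := L_pos a3
  have hn : (0 : ℝ) < n := by exact_mod_cast hn0
  have hn1 : (1 : ℝ) ≤ n := by exact_mod_cast hn0
  have hlogn : 0 ≤ Real.log n := Real.log_nonneg hn1
  by_cases hee : e = e0
  · have hj : j = 0 := by
      have := (Rch_time hR).2
      rw [hee] at this
      omega
    rw [hj] at a1
    rw [Function.iterate_zero, id] at a1
    rw [← a1, hj, div_self hn.ne', Real.log_one, mul_zero, Nat.cast_zero, sub_zero, abs_zero]
    positivity
  · have hf : 48 * (k + 1) ≤ e := by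
      rcases he with he | he
      · exact absurd he hee
      · exact he
    have h := L_core (N := N) (k := k + 1) (by omega) (by omega) hR hf
    refine h.trans ?_
    have he0 : (e0 : ℝ) ≤ 1 + 2 * Real.log n := by
      have h1 : (2 : ℝ) ^ e0 < 2 * n := by exact_mod_cast a3.1
      have h2 := Real.log_lt_log (by positivity) h1
      rw [Real.log_pow, Real.log_mul (by norm_num) hn.ne'] at h2
      have h3 : 1 / 2 ≤ Real.log 2 := by
        have := Real.one_sub_inv_le_log_of_pos (x := 2) (by norm_num)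
        norm_num at this
        linarith
      by_contra hc
      push Not at hc
      nlinarith
    have h5 : (1 : ℝ) / ((k + 1 : ℕ) : ℝ) ≤ ε / 32 := by
      have hk1 : (32 : ℝ) / ε < ((k + 1 : ℕ) : ℝ) := hk.trans (by push_cast; linarith)
      rw [div_lt_iff₀ hε] at hk1
      rw [div_le_div_iff₀ (by positivity) (by norm_num)]
      linarith
    have h6 : (133 : ℝ) / N ≤ ε / 32 := by
      have h7 : (N0 : ℝ) ≤ N := by exact_mod_cast (by omega : N0 ≤ N)
      have hN1 : (4256 : ℝ) / ε < N := hN0.trans_le h7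
      have hNp : (0 : ℝ) < N := lt_trans (by positivity) hN1
      rw [div_lt_iff₀ hε] at hN1
      rw [div_le_div_iff₀ hNp (by norm_num)]
      linarith
    have h8 : 8 * (e0 : ℝ) * (1 / ((k + 1 : ℕ) : ℝ) + 133 / N) ≤ 8 * (1 + 2 * Real.log n) * (ε / 32 + ε / 32) := by
      refine mul_le_mul ?_ (add_le_add h5 h6) (by positivity) (by positivity)
      linarith
    refine h8.trans ?_
    nlinarith

end H62z
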