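import Pool.Agent.Lib.H62z.SkK
import Pool.Agent.Lib.H62z.SkL

set_option autoImplicit false

/-! Chunk M (assembly). f = Nat.log 2 X. For f < max (2000, 2 f1): C large. Otherwise every n in [1,x] of level e0 outside the set of fail_count has
by decomp a path to e ≤ f, m ≤ 2^f ≤ X, Rch_above, good_time. Sum of fail_count over the levels e0 ≤ log2 x + 1. exp(-c f) ≤ C X^(-c'). -/

open Finset
namespace H62z
open H62w H78P

theorem M_level {n : ℕ} (hn : 1 ≤ n) : Lev (Nat.clog 2 n) n := by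
  refine ⟨?_, Nat.le_pow_clog (by norm_num) n⟩
  rcases Nat.lt_or_ge 1 n with h | h
  · have h1 : 0 < Nat.clog 2 n := Nat.clog_pos (by norm_num) h
    have h2 := Nat.pow_pred_clog_lt_self (b := 2) (by norm_num) h
    have h3 : 2 ^ Nat.clog 2 n = 2 * 2 ^ (Nat.clog 2 n).pred := by
      rw [← pow_succ']
      congr 1
      exact (Nat.succ_pred_eq_of_pos h1).symm
    rw [h3]
    exact Nat.mul_lt_mul_of_pos_left h2 (by norm_num)
  · have : n = 1 := by omega
    subst this
    simp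

/-- The exceptional set. -/
def MExc (ε C : ℝ) (X x : ℕ) : Set ℕ :=
  {n : ℕ | 1 ≤ n ∧ n ≤ x ∧ ¬ ∃ k : ℕ, T^[k] n ≤ X ∧ (∀ j < k, T^[k] n < T^[j] n) ∧
      |(k : ℝ) - 2 / Real.log (4 / 3) * Real.log ((n : ℝ) / (T^[k] n : ℕ))| ≤ ε * Real.log n + C}

theorem MExc_sub (ε C : ℝ) (X x : ℕ) : MExc ε C X x ⊆ ↑(Icc 1 x) := by
  intro n hn
  rw [coe_Icc]
  exact ⟨hn.1, hn.2.1⟩

theorem MExc_card_le (ε C : ℝ) (X x : ℕ) : ((MExc ε C X x).ncard : ℝ) ≤ x := by
  have h1 := Set.ncard_le_ncard (MExc_sub ε C X x) (Finset.finite_toSet _)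
  rw [Set.ncard_coe_finset, Nat.card_Icc] at h1
  exact_mod_cast h1

theorem M_rpow_ge {X f : ℕ} (hX : 1 ≤ X) (hf : X < 2 ^ (f + 1)) (c : ℝ) (hc : 0 < c) :
    Real.exp (-(c * f)) ≤ Real.exp c * (X : ℝ) ^ (-c) := by
  have hX0 : (0 : ℝ) < X := by exact_mod_cast hX
  have h1 : (X : ℝ) < 2 ^ (f + 1) := by exact_mod_cast hf
  have h2 := Real.log_lt_log hX0 h1
  rw [Real.log_pow] at h2
  have hl2 : Real.log 2 ≤ 1 := by
    have := Real.log_le_sub_one_of_pos (x := 2) (by norm_num)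
    linarith
  have h3 : Real.log X ≤ f + 1 := by
    push_cast at h2
    have : (0 : ℝ) ≤ f := Nat.cast_nonneg f
    nlinarith
  rw [Real.rpow_def_of_pos hX0, ← Real.exp_add]
  refine Real.exp_le_exp.mpr ?_
  nlinarith

theorem almost_all (ε : ℝ) (hε : 0 < ε) : ∃ c C : ℝ, 0 < c ∧ 0 < C ∧ ∀ X x : ℕ, 1 ≤ X → 1 ≤ x →
    (Set.ncard {n : ℕ | 1 ≤ n ∧ n ≤ x ∧ ¬ ∃ k : ℕ, T^[k] n ≤ X ∧ (∀ j < k, T^[k] n < T^[j] n) ∧
      |(k : ℝ) - 2 / Real.log (4 / 3) * Real.log ((n : ℝ) / (T^[k] n : ℕ))| ≤ ε * Real.log n + C} : ℝ) ≤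
      C * x * (X : ℝ) ^ (-c) := by
  classical
  obtain ⟨N1, f1, C1, hC1, hgt⟩ := good_time ε hε
  set N : ℕ := max N1 40000 with hN
  obtain ⟨c, C0, hc, hC0, hfail⟩ := fail_count N (le_max_right _ _)
  set F0 : ℕ := max 2000 (2 * f1) with hF0
  set C : ℝ := C1 + 4 * C0 * Real.exp c + Real.exp (c * (F0 + 1)) with hC
  have hCpos : 0 < C := by positivity
  refine ⟨c, C, hc, hCpos, ?_⟩
  intro X x hX hx
  show ((MExc ε C X x).ncard : ℝ) ≤ C * x * (X : ℝ) ^ (-c)
  have hX0 : (0 : ℝ) < X := by exact_mod_cast hX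
  have hx0 : (0 : ℝ) < x := by exact_mod_cast hx
  set f : ℕ := Nat.log 2 X with hf
  have hfX : 2 ^ f ≤ X := Nat.pow_log_le_self 2 (by omega)
  have hXf : X < 2 ^ (f + 1) := Nat.lt_pow_succ_log_self (by norm_num) X
  have hrp : 0 < (X : ℝ) ^ (-c) := Real.rpow_pos_of_pos hX0 _
  by_cases hff : f < F0
  · refine (MExc_card_le ε C X x).trans ?_
    have h1 : 1 ≤ Real.exp (c * (F0 + 1)) * (X : ℝ) ^ (-c) := by
      have h2 := M_rpow_ge hX hXf c hc
      have h3 : (1 : ℝ) = Real.exp (c * f) * Real.exp (-(c * f)) := by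
        rw [← Real.exp_add, add_neg_cancel, Real.exp_zero]
      have h4 : Real.exp (c * f) * Real.exp c ≤ Real.exp (c * (F0 + 1)) := by
        rw [← Real.exp_add]
        refine Real.exp_le_exp.mpr ?_
        have : (f : ℝ) ≤ F0 := by exact_mod_cast hff.le
        nlinarith
      calc (1 : ℝ) = Real.exp (c * f) * Real.exp (-(c * f)) := h3
        _ ≤ Real.exp (c * f) * (Real.exp c * (X : ℝ) ^ (-c)) :=
            mul_le_mul_of_nonneg_left h2 (Real.exp_pos _).le
        _ = (Real.exp (c * f) * Real.exp c) * (X : ℝ) ^ (-c) := by ring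
        _ ≤ _ := mul_le_mul_of_nonneg_right h4 hrp.le
    have h5 : 1 ≤ C * (X : ℝ) ^ (-c) := by
      refine h1.trans (mul_le_mul_of_nonneg_right ?_ hrp.le)
      rw [hC]
      have : 0 ≤ C1 + 4 * C0 * Real.exp c := by positivity
      linarith
    nlinarith
  · push Not at hff
    have hf2000 : 2000 ≤ f := (le_max_left _ _).trans hff
    have hf1 : 2 * f1 ≤ f := (le_max_right _ _).trans hff
    have hsub : MExc ε C X x ⊆ ↑((range (Nat.log 2 x + 2)).biUnion (fun e0 =>
        (range (2 ^ e0 + 1)).filter (fun n => ∃ e m j, f < e ∧ Rch N e0 n e m j ∧ ¬ Gd N e m))) := by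
      intro n hn
      obtain ⟨hn1, hn2, hn3⟩ := hn
      have hL := M_level hn1
      set e0 : ℕ := Nat.clog 2 n with he0
      rw [mem_coe, mem_biUnion]
      refine ⟨e0, ?_, ?_⟩
      · rw [mem_range]
        have h1 : 2 ^ e0 < 2 * n := hL.1
        have h2 : x < 2 ^ (Nat.log 2 x + 1) := Nat.lt_pow_succ_log_self (by norm_num) x
        have h3 : 2 ^ e0 < 2 ^ (Nat.log 2 x + 2) := by
          calc 2 ^ e0 < 2 * n := h1
            _ ≤ 2 * x := Nat.mul_le_mul_left _ hn2
            _ ≤ 2 * 2 ^ (Nat.log 2 x + 1) := Nat.mul_le_mul_left _ h2.le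
            _ = 2 ^ (Nat.log 2 x + 2) := by rw [← pow_succ']
        exact (Nat.pow_lt_pow_iff_right (by norm_num : 1 < 2)).1 h3
      · rw [mem_filter, mem_range]
        refine ⟨by have := hL.2; omega, ?_⟩
        rcases decomp (N := N) (f := f) ((by norm_num : 200 ≤ 40000).trans (le_max_right _ _)) hf2000 e0 n hL with h | h
        · exact h
        · exfalso
          obtain ⟨e, m, j, hef, he, hR⟩ := h
          refine hn3 ⟨j, ?_, ?_, ?_⟩
          · rw [(Rch_end hR).1]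
            exact (Rch_end hR).2.1.2.trans ((Nat.pow_le_pow_right (by norm_num) hef).trans hfX)
          · intro u hu
            rw [(Rch_end hR).1]
            exact lt_of_le_of_lt (Rch_end hR).2.1.2 (Rch_above hR u hu)
          · rw [(Rch_end hR).1]
            have h1 := hgt N e0 n e m j (le_max_left _ _) hR (by
              rcases he with he | he
              · exact Or.inl he
              · exact Or.inr (by omega))
            refine h1.trans ?_
            have : C1 ≤ C := by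
              rw [hC]
              have : 0 ≤ 4 * C0 * Real.exp c + Real.exp (c * (F0 + 1)) := by positivity
              linarith
            linarith
    have h1 := Set.ncard_le_ncard hsub (Finset.finite_toSet _)
    rw [Set.ncard_coe_finset] at h1
    have h2 : ((MExc ε C X x).ncard : ℝ) ≤ ∑ e0 ∈ range (Nat.log 2 x + 2),
        (((range (2 ^ e0 + 1)).filter (fun n => ∃ e m j, f < e ∧ Rch N e0 n e m j ∧ ¬ Gd N e m)).card : ℝ) := by
      have h3 := h1.trans card_biUnion_le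
      exact_mod_cast h3
    have h4 : ((MExc ε C X x).ncard : ℝ) ≤ ∑ e0 ∈ range (Nat.log 2 x + 2), C0 * Real.exp (-(c * f)) * 2 ^ e0 := by
      refine h2.trans (sum_le_sum fun e0 _ => ?_)
      have h5 := hfail e0 f
      calc _ ≤ C0 * 2 ^ e0 * Real.exp (-(c * f)) := h5
        _ = _ := by ring
    rw [← mul_sum] at h4
    have h6 : ∑ e0 ∈ range (Nat.log 2 x + 2), (2 : ℝ) ^ e0 ≤ 4 * x := by
      have h7 : ∑ e0 ∈ range (Nat.log 2 x + 2), (2 : ℝ) ^ e0 = 2 ^ (Nat.log 2 x + 2) - 1 := by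
        have := geom_sum_eq (x := (2 : ℝ)) (by norm_num) (Nat.log 2 x + 2)
        rw [this]
        norm_num
      have h8 : (2 : ℝ) ^ (Nat.log 2 x) ≤ x := by exact_mod_cast Nat.pow_log_le_self 2 (by omega : x ≠ 0)
      rw [h7, pow_add]
      linarith
    have h9 := M_rpow_ge hX hXf c hc
    have h10 : 0 ≤ C0 * Real.exp (-(c * f)) := by positivity
    calc ((MExc ε C X x).ncard : ℝ) ≤ C0 * Real.exp (-(c * f)) * ∑ e0 ∈ range (Nat.log 2 x + 2), (2 : ℝ) ^ e0 := h4
      _ ≤ C0 * Real.exp (-(c * f)) * (4 * x) := mul_le_mul_of_nonneg_left h6 h10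
      _ ≤ C0 * (Real.exp c * (X : ℝ) ^ (-c)) * (4 * x) := by
          refine mul_le_mul_of_nonneg_right (mul_le_mul_of_nonneg_left h9 hC0.le) (by positivity)
      _ = (4 * C0 * Real.exp c) * x * (X : ℝ) ^ (-c) := by ring
      _ ≤ C * x * (X : ℝ) ^ (-c) := by
          refine mul_le_mul_of_nonneg_right (mul_le_mul_of_nonneg_right ?_ hx0.le) hrp.le
          rw [hC]
          have : 0 ≤ C1 + Real.exp (c * (F0 + 1)) := by positivity
          linarith

end H62z
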