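import Pool.Agent.Lib.H62z.SkM

set_option autoImplicit false

/-! Chunk N (total stopping time). For δ > 0 take X with C X^(-c) ≤ δ/2. If n reaches 1 and is not exceptional, k as in almost_all, m = T^k n ≤ X reaches 1
and k ≤ sigma (1 is not visited before k since T^j n > m ≥ 1), sigma(n) = k + sigma(m), and sigma(m) is bounded over the finitely many m ≤ X that reach 1. -/

open Finset
namespace H62z
open H62w H78P

theorem N_iter_pos {n : ℕ} (hn : 1 ≤ n) (k : ℕ) : 1 ≤ T^[k] n := by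
  induction k with
  | zero => exact hn
  | succ k ih =>
    rw [Function.iterate_succ_apply']
    exact T_pos ih

open Classical in
/-- First hitting time of `1` (or `0`). -/
noncomputable def Nsig (m : ℕ) : ℕ := if h : ∃ k, T^[k] m = 1 then Nat.find h else 0

theorem Nsig_eq {m k : ℕ} (h1 : T^[k] m = 1) (h2 : ∀ j < k, T^[j] m ≠ 1) : Nsig m = k := by
  unfold Nsig
  rw [dif_pos ⟨k, h1⟩]
  rw [Nat.find_eq_iff]
  exact ⟨h1, fun j hj => h2 j hj⟩

/-- Almost all integers that reach 1 do so in `(2/log(4/3) + o(1)) log n` steps. -/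
theorem normal_order (ε : ℝ) (hε : 0 < ε) :
    Filter.Tendsto (fun x : ℕ => (Set.ncard {n : ℕ | 1 ≤ n ∧ n ≤ x ∧ ∃ k : ℕ, T^[k] n = 1 ∧ (∀ j < k, T^[j] n ≠ 1) ∧
      ¬ |(k : ℝ) - 2 / Real.log (4 / 3) * Real.log n| ≤ ε * Real.log n} : ℝ) / x) Filter.atTop (nhds 0) := by
  obtain ⟨c, C, hc, hC, hall⟩ := almost_all (ε / 2) (by positivity)
  set γ : ℝ := 2 / Real.log (4 / 3) with hγ
  have hγ0 : 0 ≤ γ := by
    have : 0 ≤ Real.log (4 / 3) := Real.log_nonneg (by norm_num)
    positivity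
  rw [Metric.tendsto_atTop]
  intro δ hδ
  -- choice of X
  obtain ⟨X, hX1, hXδ⟩ : ∃ X : ℕ, 1 ≤ X ∧ C * (X : ℝ) ^ (-c) < δ / 2 := by
    have h1 : Filter.Tendsto (fun X : ℕ => C * (X : ℝ) ^ (-c)) Filter.atTop (nhds 0) := by
      have h2 := (tendsto_rpow_neg_atTop hc).comp (tendsto_natCast_atTop_atTop (R := ℝ))
      have h3 := h2.const_mul C
      simpa using h3
    have h4 := h1.eventually (gt_mem_nhds (by positivity : (0 : ℝ) < δ / 2))
    obtain ⟨X0, hX0⟩ := Filter.eventually_atTop.mp h4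
    exact ⟨max X0 1, le_max_right _ _, hX0 _ (le_max_left _ _)⟩
  set B : ℕ := ∑ m ∈ range (X + 1), Nsig m with hB
  set W : ℝ := B + γ * Real.log X + C with hW
  obtain ⟨n1, hn1⟩ := exists_nat_gt (Real.exp (2 * W / ε))
  obtain ⟨x1, hx1⟩ := exists_nat_gt (2 * (n1 : ℝ) / δ)
  refine ⟨max x1 1, fun x hx => ?_⟩
  have hxx1 : x1 ≤ x := (le_max_left _ _).trans hx
  have hx1' : 1 ≤ x := (le_max_right _ _).trans hx
  have hx0 : (0 : ℝ) < x := by exact_mod_cast hx1'
  set S : Set ℕ := {n : ℕ | 1 ≤ n ∧ n ≤ x ∧ ∃ k : ℕ, T^[k] n = 1 ∧ (∀ j < k, T^[j] n ≠ 1) ∧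
      ¬ |(k : ℝ) - γ * Real.log n| ≤ ε * Real.log n} with hS
  set E : Set ℕ := {n : ℕ | 1 ≤ n ∧ n ≤ x ∧ ¬ ∃ k : ℕ, T^[k] n ≤ X ∧ (∀ j < k, T^[k] n < T^[j] n) ∧
      |(k : ℝ) - γ * Real.log ((n : ℝ) / (T^[k] n : ℕ))| ≤ ε / 2 * Real.log n + C} with hE
  have hsub : S ⊆ E ∪ ↑(Icc 1 n1) := by
    intro n hn
    obtain ⟨ha, hb, k, hk1, hk2, hk3⟩ := hn
    by_cases hnE : n ∈ E
    · exact Or.inl hnE
    · right
      rw [coe_Icc]
      refine ⟨ha, ?_⟩
      by_contra hnn
      push Not at hnn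
      apply hk3
      have hex : ∃ k : ℕ, T^[k] n ≤ X ∧ (∀ j < k, T^[k] n < T^[j] n) ∧
          |(k : ℝ) - γ * Real.log ((n : ℝ) / (T^[k] n : ℕ))| ≤ ε / 2 * Real.log n + C := by
        by_contra hc'
        exact hnE ⟨ha, hb, hc'⟩
      obtain ⟨k', hl1, hl2, hl3⟩ := hex
      have hkk : k' ≤ k := by
        by_contra hlt
        push Not at hlt
        have h1 := hl2 k hlt
        rw [hk1] at h1
        have h2 := N_iter_pos ha k'
        omega
      obtain ⟨k'', rfl⟩ := Nat.exists_eq_add_of_le hkk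
      set m : ℕ := T^[k'] n with hm
      have hm1 : 1 ≤ m := N_iter_pos ha k'
      have hsig : Nsig m = k'' := by
        refine Nsig_eq ?_ ?_
        · rw [hm, ← Function.iterate_add_apply, add_comm]
          exact hk1
        · intro j hj
          rw [hm, ← Function.iterate_add_apply]
          exact hk2 _ (by omega)
      have hkB : k'' ≤ B := by
        rw [← hsig, hB]
        exact single_le_sum (f := Nsig) (fun _ _ => Nat.zero_le _) (mem_range.2 (by omega))
      have hn0 : (0 : ℝ) < n := by exact_mod_cast ha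
      have hm0 : (0 : ℝ) < m := by exact_mod_cast hm1
      have hlogm0 : 0 ≤ Real.log m := Real.log_nonneg (by exact_mod_cast hm1)
      have hlogmX : Real.log m ≤ Real.log X := Real.log_le_log hm0 (by exact_mod_cast hl1)
      have hlogn : 2 * W / ε ≤ Real.log n := by
        rw [Real.le_log_iff_exp_le hn0]
        refine hn1.le.trans ?_
        exact_mod_cast hnn.le
      rw [div_le_iff₀ hε] at hlogn
      have hkBr : (k'' : ℝ) ≤ B := by exact_mod_cast hkB
      have hk0 : (0 : ℝ) ≤ k'' := Nat.cast_nonneg _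
      rw [Real.log_div hn0.ne' hm0.ne'] at hl3
      have e1 : (((k' + k'' : ℕ) : ℝ)) - γ * Real.log n =
          ((k' : ℝ) - γ * (Real.log n - Real.log m)) + (k'' - γ * Real.log m) := by
        push_cast
        ring
      rw [e1]
      refine (abs_add_le _ _).trans ?_
      have hgm : γ * Real.log m ≤ γ * Real.log X := mul_le_mul_of_nonneg_left hlogmX hγ0
      have hgm0 : 0 ≤ γ * Real.log m := mul_nonneg hγ0 hlogm0
      have e2 : |(k'' : ℝ) - γ * Real.log m| ≤ B + γ * Real.log X := by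
        rw [abs_le]
        constructor
        · linarith
        · linarith
      rw [hW] at hlogn
      linarith
  have hEfin : E.Finite := by
    refine (Finset.finite_toSet (Icc 1 x)).subset ?_
    intro n hn
    rw [coe_Icc]
    exact ⟨hn.1, hn.2.1⟩
  have hcard : (S.ncard : ℝ) ≤ C * x * (X : ℝ) ^ (-c) + n1 := by
    have h1 := Set.ncard_le_ncard hsub (hEfin.union (Finset.finite_toSet _))
    have h2 := Set.ncard_union_le E (↑(Icc 1 n1) : Set ℕ)
    rw [Set.ncard_coe_finset, Nat.card_Icc] at h2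
    have h3 := hall X x hX1 hx1'
    have h4 : (S.ncard : ℝ) ≤ (E.ncard : ℝ) + n1 := by
      have : S.ncard ≤ E.ncard + n1 := by omega
      exact_mod_cast this
    linarith
  rw [Real.dist_eq, sub_zero, abs_of_nonneg (by positivity), div_lt_iff₀ hx0]
  have h5 : (n1 : ℝ) < δ / 2 * x := by
    have h6 : 2 * (n1 : ℝ) / δ < x := hx1.trans_le (by exact_mod_cast hxx1)
    rw [div_lt_iff₀ hδ] at h6
    linarith
  calc (S.ncard : ℝ) ≤ C * x * (X : ℝ) ^ (-c) + n1 := hcard
    _ = (C * (X : ℝ) ^ (-c)) * x + n1 := by ring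
    _ < δ / 2 * x + δ / 2 * x := by
        have := mul_lt_mul_of_pos_right hXδ hx0
        linarith
    _ = δ * x := by ring

end H62z
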