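import Pool.Agent.Lib.H62z.Final

set_option autoImplicit false

/-!
The timed form: for almost all `n`, in natural density, some iterate among the first `c * log n`
ones (`c` larger than `2 / log (4/3)`) is below `f n`, for every `f` tending to infinity.
-/

open Filter

namespace H62z

theorem T_iterate_pos (n : ℕ) (hn : 1 ≤ n) (k : ℕ) : 1 ≤ T^[k] n := by
  induction k with
  | zero => exact hn
  | succ k ih =>
    rw [Function.iterate_succ_apply']
    generalize T^[k] n = m at ih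
    unfold T
    split_ifs <;> omega

theorem min_orbit_timed (f : ℕ → ℝ) (hf : Tendsto f atTop atTop) (b : ℝ)
    (hb : 2 / Real.log (4 / 3) < b) :
    Tendsto (fun x : ℕ => (Set.ncard {n : ℕ | 1 ≤ n ∧ n ≤ x ∧ ∀ k : ℕ,
      (k : ℝ) ≤ b * Real.log (n : ℝ) → f n ≤ (T^[k] n : ℝ)} : ℝ) / (x : ℝ)) atTop (nhds 0) := by
  set γ : ℝ := 2 / Real.log (4 / 3) with hγ
  have hγ0 : 0 < γ := div_pos two_pos (Real.log_pos (by norm_num))
  set e : ℝ := (b - γ) / 2 with he
  have he0 : 0 < e := by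
    rw [he]
    linarith
  obtain ⟨c, C, hc, hC, hmain⟩ := almost_all e he0
  rw [Metric.tendsto_atTop]
  intro η hη
  -- choose `X`
  have h1 : Tendsto (fun X : ℕ => C * (X : ℝ) ^ (-c)) atTop (nhds (C * 0)) :=
    ((tendsto_rpow_neg_atTop hc).comp tendsto_natCast_atTop_atTop).const_mul C
  rw [mul_zero] at h1
  obtain ⟨X, hX1, hX⟩ : ∃ X : ℕ, 1 ≤ X ∧ C * (X : ℝ) ^ (-c) < η / 2 := by
    have h2 := (h1.eventually (gt_mem_nhds (show (0 : ℝ) < η / 2 by positivity))).and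
      (eventually_ge_atTop 1)
    obtain ⟨X, hX⟩ := h2.exists
    exact ⟨X, hX.2, hX.1⟩
  obtain ⟨N0, hN0⟩ := eventually_atTop.1 ((hf.eventually_gt_atTop (X : ℝ)).and
    ((Real.tendsto_log_atTop.comp tendsto_natCast_atTop_atTop).eventually_ge_atTop (C / e)))
  obtain ⟨x0, hx0⟩ := exists_nat_gt (2 * N0 / η)
  refine ⟨max x0 1, fun x hx => ?_⟩
  have hx1 : 1 ≤ x := (le_max_right _ _).trans hx
  have hx1' : (0 : ℝ) < x := by exact_mod_cast hx1
  have hxx0 : (x0 : ℝ) ≤ x := by exact_mod_cast (le_max_left _ _).trans hx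
  rw [Real.dist_eq, sub_zero, abs_of_nonneg (by positivity), div_lt_iff₀ hx1']
  set E : Set ℕ := {n : ℕ | 1 ≤ n ∧ n ≤ x ∧ ¬ ∃ k : ℕ, T^[k] n ≤ X ∧
    (∀ j < k, T^[k] n < T^[j] n) ∧
    |(k : ℝ) - 2 / Real.log (4 / 3) * Real.log ((n : ℝ) / (T^[k] n : ℝ))| ≤
      e * Real.log (n : ℝ) + C} with hE
  have hsub : {n : ℕ | 1 ≤ n ∧ n ≤ x ∧ ∀ k : ℕ,
      (k : ℝ) ≤ b * Real.log (n : ℝ) → f n ≤ (T^[k] n : ℝ)} ⊆
      ↑(Finset.range N0) ∪ E := by
    rintro n ⟨h1, h2, h3⟩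
    by_cases hn : n < N0
    · left; simpa using hn
    · right
      refine ⟨h1, h2, ?_⟩
      rintro ⟨k, hk, -, hkt⟩
      obtain ⟨h4, h7⟩ := hN0 n (not_lt.1 hn)
      have h7' : C / e ≤ Real.log (n : ℝ) := h7
      rw [div_le_iff₀ he0] at h7'
      have hpos : (1 : ℝ) ≤ ((T^[k] n : ℕ) : ℝ) := by exact_mod_cast T_iterate_pos n h1 k
      have hn1 : (1 : ℝ) ≤ (n : ℝ) := by exact_mod_cast h1
      have hlog : Real.log ((n : ℝ) / (T^[k] n : ℝ)) ≤ Real.log (n : ℝ) := by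
        apply Real.log_le_log (by positivity)
        exact div_le_self (by positivity) hpos
      have hk2 := (abs_le.1 hkt).2
      have hk3 : (k : ℝ) ≤ b * Real.log (n : ℝ) := by
        have h8 : γ * Real.log ((n : ℝ) / (T^[k] n : ℝ)) ≤ γ * Real.log (n : ℝ) :=
          mul_le_mul_of_nonneg_left hlog hγ0.le
        have h9 : b * Real.log (n : ℝ) = γ * Real.log (n : ℝ) + e * Real.log (n : ℝ) +
            Real.log (n : ℝ) * e := by
          rw [he]
          ring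
        rw [h9]
        linarith
      have h5 := h3 k hk3
      have h6 : ((T^[k] n : ℕ) : ℝ) ≤ X := by exact_mod_cast hk
      linarith
  have hEfin : E.Finite := (Set.finite_Icc 1 x).subset fun n hn => ⟨hn.1, hn.2.1⟩
  have h2 := Set.ncard_le_ncard hsub ((Finset.finite_toSet _).union hEfin)
  have h3 := Set.ncard_union_le (↑(Finset.range N0)) E
  rw [Set.ncard_coe_finset, Finset.card_range] at h3
  have h4 : (Set.ncard {n : ℕ | 1 ≤ n ∧ n ≤ x ∧ ∀ k : ℕ,
      (k : ℝ) ≤ b * Real.log (n : ℝ) → f n ≤ (T^[k] n : ℝ)} : ℝ) ≤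
      N0 + (E.ncard : ℝ) := by exact_mod_cast h2.trans h3
  have h5 := hmain X x hX1 hx1
  rw [← hE] at h5
  have h6 : (N0 : ℝ) < η / 2 * x := by
    rw [div_lt_iff₀ hη] at hx0
    nlinarith
  have h7 : C * (x : ℝ) * (X : ℝ) ^ (-c) ≤ η / 2 * x := by
    have := mul_le_mul_of_nonneg_right hX.le hx1'.le
    linarith
  linarith

end H62z
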